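import Pool.Agent.Q66.BS.Op

/-!
# The invariant of a belted closure is a trace
-/

set_option autoImplicit false

namespace Pool.Agent.Q66.BS

open Finset Matrix Pool.Agent.W715.VC Pool.Agent.H550R3.Jones Pool.Agent.Q66.TG
open Pool.Agent.W709.QAT (Piece run cup cap kap Diag)
open Pool.Agent.W591.QAT (act_twist act_cup act_cap)

variable {N : ℕ}

/-! ### a diagram with strands to the left and to the right -/

/-- the piece with `i` more strands to its left -/
def shP (i : ℕ) : Piece → Piece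
  | .cup j => .cup (i + j)
  | .cap j => .cap (i + j)
  | .twist j σ m => .twist (i + j) σ m

/-- the diagram with `i` more strands to its left -/
def shD (i : ℕ) (D : Diag) : Diag := D.map (shP i)

lemma shD_append (i : ℕ) (D D' : Diag) : shD i (D ++ D') = shD i D ++ shD i D' := by
  simp [shD]

theorem act_shift (P : Piece) (n i : ℕ) (h : Fit P n) (f : List (Fin N) → ℂ)
    (s r t : List (Fin N)) (hs : s.length = i) (ht : t.length = out P n) :
    (shP i P).act N (rt N) f (s ++ (t ++ r)) = P.act N (rt N) (fun u => f (s ++ (u ++ r))) t := by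
  subst hs
  cases P with
  | cup k =>
    obtain ⟨j, rfl⟩ : ∃ j, n = k + j := ⟨n - k, by simp only [Fit] at h; omega⟩
    obtain ⟨T, u, a, b, rfl, hu, rfl⟩ := split_two (s := t) (i := k) (j := j)
      (by rw [ht]; simp only [out]; omega)
    rw [act_cup _ _ T u a b rfl]
    have e : s ++ (T ++ a :: b :: u ++ r) = (s ++ T) ++ a :: b :: (u ++ r) := by simp
    rw [e]
    change (Piece.cup (s.length + T.length)).act N (rt N) f _ = _
    rw [act_cup _ _ (s ++ T) (u ++ r) a b (by simp)]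
    simp
  | cap k =>
    obtain ⟨j, rfl⟩ : ∃ j, n = k + (2 + j) := ⟨n - k - 2, by simp only [Fit] at h; omega⟩
    obtain ⟨T, u, rfl, hu, rfl⟩ := split_at (s := t) (i := k) (j := j)
      (by rw [ht]; simp only [out]; omega)
    rw [act_cap _ _ T u rfl]
    have e : s ++ (T ++ u ++ r) = (s ++ T) ++ (u ++ r) := by simp
    rw [e]
    change (Piece.cap (s.length + T.length)).act N (rt N) f _ = _
    rw [act_cap _ _ (s ++ T) (u ++ r) (by simp)]
    refine sum_congr rfl fun p _ => ?_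
    simp
  | twist k σ m =>
    obtain ⟨j, rfl⟩ : ∃ j, n = k + (2 + j) := ⟨n - k - 2, by simp only [Fit] at h; omega⟩
    obtain ⟨T, u, a, b, rfl, hu, rfl⟩ := split_two (s := t) (i := k) (j := j) ht
    rw [act_twist _ _ _ _ T u a b rfl]
    have e : s ++ (T ++ a :: b :: u ++ r) = (s ++ T) ++ a :: b :: (u ++ r) := by simp
    rw [e]
    change (Piece.twist (s.length + T.length) σ m).act N (rt N) f _ = _
    rw [act_twist _ _ _ _ (s ++ T) (u ++ r) a b (by simp)]
    refine sum_congr rfl fun p _ => ?_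
    simp

theorem run_shift (i : ℕ) (s r : List (Fin N)) (hs : s.length = i) : ∀ (D : Diag) (n : ℕ),
    FitD D n → ∀ (f : List (Fin N) → ℂ) (t : List (Fin N)), t.length = outD D n →
      run N (rt N) (shD i D) f (s ++ (t ++ r)) = run N (rt N) D (fun u => f (s ++ (u ++ r))) t
  | [], n, _, f, t, ht => rfl
  | P :: D, n, h, f, t, ht => by
    change run N (rt N) (shP i P :: shD i D) f (s ++ (t ++ r)) = _
    rw [run_cons, run_cons, run_shift i s r hs D (out P n) h.2 _ t ht]
    exact run_congr D (out P n) h.2 (fun u hu => act_shift P n i h.1 f s r u hs hu) t ht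

/-! ### the closure with a belt -/

/-- The closure of a diagram with two strands, together with a belt which encircles the two strands.
The belt is the strand which is cut open. -/
def belt (A : Diag) : Diag :=
  Piece.cup 1 :: Piece.cup 2 :: (shD 1 A ++ [Piece.twist 0 true 1, Piece.twist 1 true 1,
    Piece.twist 1 true 1, Piece.twist 0 true 1, Piece.cap 2, Piece.cap 1])

/-- the factor of a crossing with the highest weight vector -/
noncomputable def ph (N : ℕ) (x : Fin N) : ℂ := rt N ^ (-((N : ℤ) - 1) * (1 + (x : ℕ)))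

lemma cP_left (hN : 0 < N) (x : Fin N) (q : Fin N × Fin N) :
    crossP N (rt N) (⟨0, hN⟩, x) q = if q = (x, ⟨0, hN⟩) then ph N x else 0 := by
  unfold crossP
  dsimp only
  by_cases h : q = (x, ⟨0, hN⟩)
  · subst h
    rw [if_pos rfl, if_pos ⟨by simp, le_rfl⟩]
    simp only [Nat.sub_self, Finset.range_zero, Finset.prod_empty, mul_one, Nat.cast_zero, mul_zero,
      add_zero, zero_mul, Nat.zero_div, pow_zero]
    have h1 : brf (rt N) 0 = 1 := by simp [brf]
    rw [h1, mul_one, div_one, mul_one]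
    rfl
  · rw [if_neg h, if_neg]
    rintro ⟨h1, h2⟩
    apply h
    refine Prod.ext (Fin.ext ?_) (Fin.ext ?_)
    · dsimp only
      omega
    · dsimp only
      omega

lemma cP_right (hN : 0 < N) (x y q2 : Fin N) :
    crossP N (rt N) (x, y) (⟨0, hN⟩, q2) = if q2 = x ∧ y = ⟨0, hN⟩ then ph N x else 0 := by
  unfold crossP
  dsimp only
  by_cases h : q2 = x ∧ y = ⟨0, hN⟩
  · obtain ⟨rfl, rfl⟩ := h
    rw [if_pos ⟨by simp, le_rfl⟩, if_pos ⟨rfl, rfl⟩]
    simp only [Nat.sub_self, Finset.range_zero, Finset.prod_empty, mul_one, Nat.cast_zero, mul_zero,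
      add_zero, zero_mul, Nat.zero_div, pow_zero]
    have h1 : brf (rt N) 0 = 1 := by simp [brf]
    have h2 : brf (rt N) (q2 : ℕ) ≠ 0 := Pool.Agent.W715.VC.brf_ne' q2.isLt
    rw [h1, mul_one, div_self h2, mul_one]
    rfl
  · rw [if_neg h, if_neg]
    rintro ⟨h1, h2⟩
    apply h
    refine ⟨Fin.ext ?_, Fin.ext ?_⟩
    · omega
    · change (y : ℕ) = 0
      omega

/-- the quantum trace factor -/
lemma cc_eq (hN : 0 < N) (x q : Fin N) :
    ∑ p, cap N (rt N) (x, p) * cup N (rt N) (q, p) =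
      if x = q then (-1) ^ (N - 1) * rt N ^ ((N : ℤ) - 1 - 2 * (x : ℕ)) else 0 := by
  have hx := x.isLt
  rw [sum_eq_single (⟨N - 1 - x, by omega⟩ : Fin N)]
  · by_cases h : x = q
    · subst h
      rw [if_pos rfl]
      unfold cap cup
      dsimp only
      rw [if_pos (by omega), if_pos (by omega)]
      unfold Pool.Agent.W709.QAT.kap
      have h1 : brf (rt N) (x : ℕ) ≠ 0 := Pool.Agent.W715.VC.brf_ne' hx
      have h2 : brf (rt N) (N - 1 - x) ≠ 0 := Pool.Agent.W715.VC.brf_ne' (by omega)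
      have h3 : brf (rt N) (N - 1) ≠ 0 := Pool.Agent.W715.VC.brf_ne' (by omega)
      have e1 : N - 1 - (N - 1 - (x : ℕ)) = x := by omega
      rw [e1]
      have e2 : (((N - 1 - (x : ℕ) : ℕ)) : ℤ) = (N : ℤ) - 1 - (x : ℕ) := by omega
      rw [e2]
      have h4 : rt N ≠ 0 := rt_ne N
      have h5 : ((x : ℕ) : ℤ) * ((N : ℤ) - 2 - (x : ℕ)) =
          (((N : ℤ) - 1 - (x : ℕ)) * ((N : ℤ) - 2 - ((N : ℤ) - 1 - (x : ℕ)))) +
            ((N : ℤ) - 1 - 2 * (x : ℕ)) := by ring
      rw [h5, zpow_add₀ h4]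
      have h6 : ((-1 : ℂ)) ^ (x : ℕ) = (-1) ^ (N - 1) * (-1) ^ (N - 1 - (x : ℕ)) := by
        rw [← pow_add]
        have : N - 1 + (N - 1 - (x : ℕ)) = 2 * (N - 1 - x) + x := by omega
        rw [this, pow_add, pow_mul]
        norm_num
      rw [h6]
      have h7 : ((-1 : ℂ)) ^ (N - 1 - (x : ℕ)) ≠ 0 := pow_ne_zero _ (by norm_num)
      have h8 := zpow_ne_zero (((N : ℤ) - 1 - (x : ℕ)) * ((N : ℤ) - 2 - ((N : ℤ) - 1 - (x : ℕ)))) h4
      field_simp
    · rw [if_neg h]
      have : cup N (rt N) (q, (⟨N - 1 - x, by omega⟩ : Fin N)) = 0 := by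
        unfold cup
        rw [if_neg]
        dsimp only
        intro h1
        apply h
        refine Fin.ext ?_
        omega
      rw [this, mul_zero]
  · intro p _ hp
    have : cap N (rt N) (x, p) = 0 := by
      unfold cap
      rw [if_neg]
      dsimp only
      intro h1
      apply hp
      refine Fin.ext ?_
      change (p : ℕ) = N - 1 - x
      omega
    rw [this, zero_mul]
  · intro h
    exact absurd (mem_univ _) h

lemma ph_sq (hN : 0 < N) (x : Fin N) :
    ph N x ^ 2 * ((-1) ^ (N - 1) * rt N ^ ((N : ℤ) - 1 - 2 * (x : ℕ))) = (-1) ^ N * rt N := by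
  have h4 : rt N ≠ 0 := rt_ne N
  unfold ph
  have h1 : (rt N ^ (-((N : ℤ) - 1) * (1 + (x : ℕ)))) ^ 2 * rt N ^ ((N : ℤ) - 1 - 2 * (x : ℕ)) =
      rt N ^ ((N : ℤ) * (-(2 * (x : ℕ)) - 1)) * rt N := by
    rw [← zpow_natCast, ← _root_.zpow_mul, ← zpow_add₀ h4, ← zpow_add_one₀ h4]
    congr 1
    push_cast
    ring
  have h2 : rt N ^ ((N : ℤ) * (-(2 * (x : ℕ)) - 1)) = -1 := by
    rw [_root_.zpow_mul, zpow_natCast, rt_pow_N hN]
    have : (-(2 * ((x : ℕ) : ℤ)) - 1) = 2 * (-((x : ℕ) : ℤ) - 1) + 1 := by ring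
    rw [this, zpow_add₀ (by norm_num), _root_.zpow_mul]
    norm_num
  have h3 : ((-1 : ℂ)) ^ N = (-1) ^ (N - 1) * (-1) := by
    rw [← pow_succ, Nat.sub_add_cancel hN]
  rw [h3]
  calc _ = (-1) ^ (N - 1) * ((rt N ^ (-((N : ℤ) - 1) * (1 + (x : ℕ)))) ^ 2 *
        rt N ^ ((N : ℤ) - 1 - 2 * (x : ℕ))) := by ring
    _ = _ := by rw [h1, h2]; ring

/-! ### the steps -/

/-- vectors which vanish if the first strand is not in the state `0` -/
def Fst (hN : 0 < N) (g : List (Fin N) → ℂ) : Prop :=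
  ∀ b x y c d : Fin N, b ≠ ⟨0, hN⟩ → g [b, x, y, c, d] = 0

lemma st2 (hN : 0 < N) {g : List (Fin N) → ℂ} (hg : Fst hN g) (x q1 q2 c d : Fin N) :
    (Piece.twist 0 true 1).act N (rt N) g [x, q1, q2, c, d] =
      if q1 = ⟨0, hN⟩ then ph N x * g [⟨0, hN⟩, x, q2, c, d] else 0 := by
  have h1 := act_twist (v := rt N) 0 true 1 g [] [q2, c, d] x q1 rfl
  refine h1.trans ?_
  simp only [if_true, pow_one, List.nil_append]
  rw [Fintype.sum_prod_type, sum_eq_single (⟨0, hN⟩ : Fin N)]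
  · by_cases h : q1 = ⟨0, hN⟩
    · rw [if_pos h, sum_eq_single x]
      · rw [cP_right hN, if_pos ⟨rfl, h⟩]
      · intro y _ hy
        rw [cP_right hN, if_neg fun h2 => hy h2.1, zero_mul]
      · intro h2
        exact absurd (mem_univ _) h2
    · rw [if_neg h]
      refine sum_eq_zero fun y _ => ?_
      rw [cP_right hN, if_neg fun h2 => h h2.2, zero_mul]
  · intro b _ hb
    refine sum_eq_zero fun y _ => ?_
    rw [hg _ _ _ _ _ hb, mul_zero]
  · intro h
    exact absurd (mem_univ _) h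

lemma st3 (hN : 0 < N) {g : List (Fin N) → ℂ} (x : Fin N)
    (hg : ∀ q1 q2 c d : Fin N, q1 ≠ ⟨0, hN⟩ → g [x, q1, q2, c, d] = 0) (y c d : Fin N) :
    (Piece.twist 1 true 1).act N (rt N) g [x, y, ⟨0, hN⟩, c, d] =
      ph N y * g [x, ⟨0, hN⟩, y, c, d] := by
  have h1 := act_twist (v := rt N) 1 true 1 g [x] [c, d] y ⟨0, hN⟩ rfl
  refine h1.trans ?_
  simp only [if_true, pow_one]
  rw [Fintype.sum_prod_type, sum_eq_single (⟨0, hN⟩ : Fin N)]
  · rw [sum_eq_single y]
    · rw [cP_right hN, if_pos ⟨rfl, rfl⟩]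
      rfl
    · intro w _ hw
      rw [cP_right hN, if_neg fun h2 => hw h2.1, zero_mul]
    · intro h2
      exact absurd (mem_univ _) h2
  · intro b _ hb
    refine sum_eq_zero fun w _ => ?_
    have h2 : g ([x] ++ b :: w :: [c, d]) = 0 := hg b w c d hb
    rw [h2, mul_zero]
  · intro h
    exact absurd (mem_univ _) h

lemma st4 (hN : 0 < N) (g : List (Fin N) → ℂ) (x y c d : Fin N) :
    (Piece.twist 1 true 1).act N (rt N) g [x, ⟨0, hN⟩, y, c, d] =
      ph N y * g [x, y, ⟨0, hN⟩, c, d] := by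
  have h1 := act_twist (v := rt N) 1 true 1 g [x] [c, d] ⟨0, hN⟩ y rfl
  refine h1.trans ?_
  simp only [if_true, pow_one]
  rw [sum_eq_single (y, (⟨0, hN⟩ : Fin N))]
  · rw [cP_left hN, if_pos rfl]
    rfl
  · intro q _ hq
    rw [cP_left hN, if_neg hq, zero_mul]
  · intro h
    exact absurd (mem_univ _) h

lemma st5 (hN : 0 < N) (g : List (Fin N) → ℂ) (x y c d : Fin N) :
    (Piece.twist 0 true 1).act N (rt N) g [⟨0, hN⟩, x, y, c, d] =
      ph N x * g [x, ⟨0, hN⟩, y, c, d] := by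
  have h1 := act_twist (v := rt N) 0 true 1 g [] [y, c, d] ⟨0, hN⟩ x rfl
  refine h1.trans ?_
  simp only [if_true, pow_one, List.nil_append]
  rw [sum_eq_single (x, (⟨0, hN⟩ : Fin N))]
  · rw [cP_left hN, if_pos rfl]
  · intro q _ hq
    rw [cP_left hN, if_neg hq, zero_mul]
  · intro h
    exact absurd (mem_univ _) h

lemma st_all (hN : 0 < N) {g : List (Fin N) → ℂ} (hg : Fst hN g) (x y c d : Fin N) :
    (Piece.twist 0 true 1).act N (rt N) ((Piece.twist 1 true 1).act N (rt N)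
      ((Piece.twist 1 true 1).act N (rt N) ((Piece.twist 0 true 1).act N (rt N) g)))
        [⟨0, hN⟩, x, y, c, d] = (ph N x ^ 2 * ph N y ^ 2) * g [⟨0, hN⟩, x, y, c, d] := by
  rw [st5 hN, st4 hN, st3 hN x (fun q1 q2 c d h => by rw [st2 hN hg, if_neg h]), st2 hN hg,
    if_pos rfl]
  ring

lemma st_cap (hN : 0 < N) (g : List (Fin N) → ℂ) :
    (Piece.cap 1).act N (rt N) ((Piece.cap 2).act N (rt N) g) [⟨0, hN⟩] =
      ∑ x, ∑ d, ∑ y, ∑ c, cap N (rt N) (x, d) * cap N (rt N) (y, c) *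
        g [⟨0, hN⟩, x, y, c, d] := by
  have h6 := act_cap (v := rt N) 1 ((Piece.cap 2).act N (rt N) g) [⟨0, hN⟩] [] rfl
  refine h6.trans ?_
  rw [Fintype.sum_prod_type]
  refine sum_congr rfl fun x _ => sum_congr rfl fun d _ => ?_
  have h8 := act_cap (v := rt N) 2 g [⟨0, hN⟩, x] [d] rfl
  have h9 : (Piece.cap 2).act N (rt N) g ([⟨0, hN⟩] ++ x :: d :: []) =
      ∑ p : Fin N × Fin N, cap N (rt N) p * g ([⟨0, hN⟩, x] ++ p.1 :: p.2 :: [d]) := h8
  rw [h9, Fintype.sum_prod_type, mul_sum]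
  refine sum_congr rfl fun y _ => ?_
  rw [mul_sum]
  refine sum_congr rfl fun c _ => ?_
  rw [mul_assoc]
  rfl

lemma st_cup (hN : 0 < N) (b x y c d : Fin N) :
    (Piece.cup 2).act N (rt N) ((Piece.cup 1).act N (rt N) (e0 hN)) [b, x, y, c, d] =
      cup N (rt N) (y, c) * (cup N (rt N) (x, d) * e0 hN [b]) := by
  have h1 := act_cup (v := rt N) 2 ((Piece.cup 1).act N (rt N) (e0 hN)) [b, x] [d] y c rfl
  have h2 := act_cup (v := rt N) 1 (e0 hN) [b] [] x d rfl
  refine h1.trans ?_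
  congr 1

lemma st_A (hN : 0 < N) {A : Diag} (hA : T22 A) (g : List (Fin N) → ℂ) (b x y c d : Fin N) :
    run N (rt N) (shD 1 A) g [b, x, y, c, d] =
      ∑ q : Fin N × Fin N, opM N A (x, y) q * g [b, q.1, q.2, c, d] := by
  have h1 := run_shift (N := N) 1 [b] [c, d] rfl A 2 hA.1 g [x, y] (by rw [hA.2]; rfl)
  refine h1.trans ?_
  rw [run_two hN hA]
  rfl

/-- **the invariant of the closure with a belt is the trace of the operator** -/
theorem belt_trace (hN : 0 < N) {A : Diag} (hA : T22 A) :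
    run N (rt N) (belt A) (e0 hN) [⟨0, hN⟩] = rt N ^ 2 * Matrix.trace (opM N A) := by
  have hrun : run N (rt N) (belt A) (e0 hN) =
      (Piece.cap 1).act N (rt N) ((Piece.cap 2).act N (rt N)
        ((Piece.twist 0 true 1).act N (rt N) ((Piece.twist 1 true 1).act N (rt N)
      ((Piece.twist 1 true 1).act N (rt N) ((Piece.twist 0 true 1).act N (rt N)
        (run N (rt N) (shD 1 A) ((Piece.cup 2).act N (rt N) ((Piece.cup 1).act N (rt N)
          (e0 hN))))))))) := by
    unfold belt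
    rw [run_cons, run_cons, run_append]
    rfl
  have hF : Fst hN (run N (rt N) (shD 1 A) ((Piece.cup 2).act N (rt N)
      ((Piece.cup 1).act N (rt N) (e0 hN)))) := by
    intro b x y c d hb
    rw [st_A hN hA]
    refine sum_eq_zero fun q _ => ?_
    have : e0 hN [b] = 0 := by
      unfold e0
      rw [if_neg]
      simpa using hb
    rw [st_cup, this, mul_zero, mul_zero, mul_zero]
  have he0 : e0 hN [⟨0, hN⟩] = 1 := by simp [e0]
  rw [hrun, st_cap]
  have h1 : ∀ x y c d : Fin N, cap N (rt N) (x, d) * cap N (rt N) (y, c) *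
      ((Piece.twist 0 true 1).act N (rt N) ((Piece.twist 1 true 1).act N (rt N)
        ((Piece.twist 1 true 1).act N (rt N) ((Piece.twist 0 true 1).act N (rt N)
        (run N (rt N) (shD 1 A) ((Piece.cup 2).act N (rt N) ((Piece.cup 1).act N (rt N)
          (e0 hN))))))) [⟨0, hN⟩, x, y, c, d]) =
      ∑ q : Fin N × Fin N, opM N A (x, y) q * (ph N x ^ 2 * ph N y ^ 2) *
        (cap N (rt N) (x, d) * cup N (rt N) (q.1, d)) *
          (cap N (rt N) (y, c) * cup N (rt N) (q.2, c)) := by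
    intro x y c d
    rw [st_all hN hF, st_A hN hA, mul_sum, mul_sum]
    refine sum_congr rfl fun q _ => ?_
    rw [st_cup, he0]
    ring
  simp only [h1]
  have h2 : ∀ x : Fin N, ∑ d, ∑ y, ∑ c, ∑ q : Fin N × Fin N,
      opM N A (x, y) q * (ph N x ^ 2 * ph N y ^ 2) *
        (cap N (rt N) (x, d) * cup N (rt N) (q.1, d)) *
          (cap N (rt N) (y, c) * cup N (rt N) (q.2, c)) =
      ∑ y, ∑ q : Fin N × Fin N, opM N A (x, y) q * (ph N x ^ 2 * ph N y ^ 2) *
        (∑ d, cap N (rt N) (x, d) * cup N (rt N) (q.1, d)) *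
          (∑ c, cap N (rt N) (y, c) * cup N (rt N) (q.2, c)) := by
    intro x
    rw [sum_comm]
    refine sum_congr rfl fun y _ => ?_
    have h3 : ∀ d : Fin N, ∑ c, ∑ q : Fin N × Fin N,
        opM N A (x, y) q * (ph N x ^ 2 * ph N y ^ 2) *
        (cap N (rt N) (x, d) * cup N (rt N) (q.1, d)) *
          (cap N (rt N) (y, c) * cup N (rt N) (q.2, c)) =
        ∑ q : Fin N × Fin N, opM N A (x, y) q * (ph N x ^ 2 * ph N y ^ 2) *
        (cap N (rt N) (x, d) * cup N (rt N) (q.1, d)) *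
          (∑ c, cap N (rt N) (y, c) * cup N (rt N) (q.2, c)) := by
      intro d
      rw [sum_comm]
      exact sum_congr rfl fun q _ => (mul_sum _ _ _).symm
    rw [sum_congr rfl fun d _ => h3 d, sum_comm]
    refine sum_congr rfl fun q _ => ?_
    rw [← sum_mul, ← mul_sum]
  rw [sum_congr rfl fun x _ => h2 x]
  have h4 : ∀ x y : Fin N, ∑ q : Fin N × Fin N, opM N A (x, y) q * (ph N x ^ 2 * ph N y ^ 2) *
        (∑ d, cap N (rt N) (x, d) * cup N (rt N) (q.1, d)) *
          (∑ c, cap N (rt N) (y, c) * cup N (rt N) (q.2, c)) =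
      rt N ^ 2 * opM N A (x, y) (x, y) := by
    intro x y
    rw [sum_eq_single (x, y)]
    · rw [cc_eq hN, cc_eq hN, if_pos rfl, if_pos rfl]
      have e1 := ph_sq hN x
      have e2 := ph_sq hN y
      calc _ = opM N A (x, y) (x, y) *
            (ph N x ^ 2 * ((-1) ^ (N - 1) * rt N ^ ((N : ℤ) - 1 - 2 * (x : ℕ)))) *
            (ph N y ^ 2 * ((-1) ^ (N - 1) * rt N ^ ((N : ℤ) - 1 - 2 * (y : ℕ)))) := by ring
        _ = _ := by
          rw [e1, e2]
          have : ((-1 : ℂ)) ^ N * (-1) ^ N = 1 := by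
            rw [← mul_pow]
            norm_num
          linear_combination (opM N A (x, y) (x, y) * rt N ^ 2) * this
    · intro q _ hq
      rw [cc_eq hN, cc_eq hN]
      by_cases h5 : x = q.1
      · have h6 : y ≠ q.2 := fun h7 => hq (Prod.ext h5.symm h7.symm)
        rw [if_neg h6, mul_zero]
      · rw [if_neg h5, mul_zero, zero_mul]
    · intro h
      exact absurd (mem_univ _) h
  rw [sum_congr rfl fun x _ => sum_congr rfl fun y _ => h4 x y]
  unfold Matrix.trace
  rw [Fintype.sum_prod_type, mul_sum]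
  refine sum_congr rfl fun x _ => ?_
  rw [mul_sum]
  rfl

end Pool.Agent.Q66.BS
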