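import Pool.Agent.Q66.BS.Belt

/-!
# Belted closures: the inequalities for the invariants
-/

set_option autoImplicit false

namespace Pool.Agent.Q66.BS

open Finset Matrix Filter Topology Pool.Agent.W715.VC Pool.Agent.H550R3.Jones Pool.Agent.Q66.TG
open Pool.Agent.W709.QAT (Piece run cup cap kap Diag)

variable {N : ℕ}

lemma norm_rt (N : ℕ) : ‖rt N‖ = 1 := by
  have := norm_rt_zpow (N := N) 1
  rwa [zpow_one] at this

/-- the invariant of the closure with a belt -/
noncomputable def bv (hN : 0 < N) (A : Diag) : ℂ := run N (rt N) (belt A) (e0 hN) [⟨0, hN⟩]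

lemma bv_eq (hN : 0 < N) {A : Diag} (hA : T22 A) :
    bv hN A = rt N ^ 2 * Matrix.trace (opM N A) := belt_trace hN hA

lemma norm_bv (hN : 0 < N) {A : Diag} (hA : T22 A) :
    ‖bv hN A‖ = ‖Matrix.trace (opM N A)‖ := by
  rw [bv_eq hN hA, norm_mul, norm_pow, norm_rt, one_pow, one_mul]

/-- a tangle followed by its antipodal image -/
def dbl (A : Diag) : Diag := A ++ dlD A 2

lemma T22_dbl {A : Diag} (hA : T22 A) : T22 (dbl A) := T22_append hA (T22_dl hA)

lemma good_sh (hN : 0 < N) {A : Diag} (hA : T22 A) : Good (sh (opM N A)) := by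
  rw [← opM_dl hN hA]
  exact good_opM hN (T22_dl hA)

lemma opM_dbl (hN : 0 < N) {A : Diag} (hA : T22 A) :
    opM N (dbl A) = sh (opM N A) * opM N A := by
  unfold dbl
  rw [opM_append hN hA (T22_dl hA), opM_dl hN hA]

theorem bv_pow (hN : 0 < N) {A : Diag} (hA : T22 A) (m : ℕ) :
    bv hN (pw (dbl A) m) =
      rt N ^ 2 * (∑ s ∈ SS N, (mult N s : ℝ) * (‖ev s (opM N A)‖ ^ 2) ^ m : ℝ) := by
  rw [bv_eq hN (T22_pw (T22_dbl hA) m), opM_pw hN (T22_dbl hA), opM_dbl hN hA,
    trace_pow (good_opM hN hA) (good_sh hN hA)]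

theorem norm_bv_pow (hN : 0 < N) {A : Diag} (hA : T22 A) (m : ℕ) :
    ‖bv hN (pw (dbl A) m)‖ = ∑ s ∈ SS N, (mult N s : ℝ) * (‖ev s (opM N A)‖ ^ 2) ^ m := by
  rw [bv_pow hN hA, norm_mul, norm_pow, norm_rt, one_pow, one_mul, Complex.norm_real,
    Real.norm_eq_abs, abs_of_nonneg (sum_nonneg fun s _ => by positivity)]

theorem norm_bv_dbl (hN : 0 < N) {A : Diag} (hA : T22 A) :
    ‖bv hN (dbl A)‖ = Pd (opM N A) := by
  have h := norm_bv_pow hN hA 1
  rw [pw_one] at h
  rw [h]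
  unfold Pd
  simp only [pow_one]

theorem bv_pow_le (hN : 0 < N) {A : Diag} (hA : T22 A) (m : ℕ) :
    ‖bv hN (pw (dbl A) (m + 1))‖ ≤ ‖bv hN (dbl A)‖ ^ (m + 1) := by
  rw [norm_bv_pow hN hA, norm_bv_dbl hN hA]
  exact pow_le _ m

theorem le_bv_pow (hN : 0 < N) {A : Diag} (hA : T22 A) (m : ℕ) :
    ‖bv hN (dbl A)‖ ^ (m + 1) ≤ ((N : ℝ) ^ 2) ^ m * ‖bv hN (pw (dbl A) (m + 1))‖ := by
  rw [norm_bv_pow hN hA, norm_bv_dbl hN hA]
  exact le_pow hN _ m

theorem bv_cs (hN : 0 < N) {A B : Diag} (hA : T22 A) (hB : T22 B) :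
    ‖bv hN (A ++ B)‖ ^ 2 ≤ ‖bv hN (dbl A)‖ * ‖bv hN (dbl B)‖ := by
  rw [norm_bv hN (T22_append hA hB), opM_append hN hA hB, norm_bv_dbl hN hA, norm_bv_dbl hN hB,
    mul_comm (Pd (opM N A))]
  exact trace_cs (good_opM hN hB) (good_opM hN hA)

theorem bv_prod (hN : 0 < N) {A B : Diag} (hA : T22 A) (hB : T22 B) :
    ‖bv hN (dbl (A ++ B))‖ ≤ ‖bv hN (dbl A)‖ * ‖bv hN (dbl B)‖ := by
  rw [norm_bv_dbl hN (T22_append hA hB), norm_bv_dbl hN hA, norm_bv_dbl hN hB,
    opM_append hN hA hB, mul_comm (Pd (opM N A))]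
  exact prod_le (good_opM hN hB) (good_opM hN hA)

theorem bv_self (hN : 0 < N) {A : Diag} (hA : T22 A) :
    ‖bv hN A‖ ^ 2 ≤ (N : ℝ) ^ 2 * ‖bv hN (dbl A)‖ := by
  have h := bv_cs hN hA T22_nil
  rw [List.append_nil] at h
  have h1 : ‖bv hN (dbl [])‖ = (N : ℝ) ^ 2 := by
    have : dbl ([] : Diag) = [] := rfl
    rw [this, norm_bv hN T22_nil, opM_nil hN, Matrix.trace_one, Fintype.card_prod, Fintype.card_fin,
      Complex.norm_natCast]
    push_cast
    ring
  rw [h1, mul_comm] at h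
  exact h

/-- the powers of any tangle -/
theorem bv_pow_self (hN : 0 < N) {A : Diag} (hA : T22 A) (m : ℕ) :
    ‖bv hN (pw A (m + 1))‖ ^ 2 ≤ (N : ℝ) ^ 2 * ‖bv hN (dbl A)‖ ^ (m + 1) := by
  refine (bv_self hN (T22_pw hA (m + 1))).trans (mul_le_mul_of_nonneg_left ?_ (by positivity))
  induction m with
  | zero => rw [zero_add, pow_one, pw_one]
  | succ m ih =>
    rw [pw_succ, pow_succ']
    exact (bv_prod hN hA (T22_pw hA (m + 1))).trans
      (mul_le_mul_of_nonneg_left ih (norm_nonneg _))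

/-! ### growth -/

/-- Sequences whose ratios are polynomially bounded have the same growth. -/
theorem growth_tendsto {a b : ℕ → ℝ} {m k : ℕ} (ha : ∀ N, 0 ≤ a N) (hb : ∀ N, 0 ≤ b N)
    (h1 : ∀ N : ℕ, 0 < N → b N ≤ a N ^ (m + 1))
    (h2 : ∀ N : ℕ, 0 < N → a N ^ (m + 1) ≤ ((N : ℝ) ^ 2) ^ k * b N) :
    Tendsto (fun N : ℕ => 2 * Real.pi / N * Real.log (b N) -
      (m + 1 : ℝ) * (2 * Real.pi / N * Real.log (a N))) atTop (𝓝 0) := by
  have hlog : Tendsto (fun N : ℕ => (4 * Real.pi * k) * (Real.log N / N)) atTop (𝓝 0) := by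
    have h3 : Tendsto (fun x : ℝ => Real.log x / x) atTop (𝓝 0) := by
      have := Real.isLittleO_log_id_atTop.tendsto_div_nhds_zero
      exact this
    have h4 := (h3.comp tendsto_natCast_atTop_atTop).const_mul (4 * Real.pi * k)
    rw [mul_zero] at h4
    exact h4
  refine squeeze_zero_norm' ?_ hlog
  filter_upwards [eventually_gt_atTop 0] with N hN
  have hN' : (0 : ℝ) < N := by exact_mod_cast hN
  have hN1 : (1 : ℝ) ≤ N := by exact_mod_cast hN
  rcases (ha N).eq_or_lt with h0 | h0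
  · have hb0 : b N = 0 := by
      have h5 := h1 N hN
      rw [← h0, zero_pow (by omega)] at h5
      exact le_antisymm h5 (hb N)
    rw [hb0, ← h0, Real.log_zero, mul_zero, mul_zero, sub_zero, norm_zero]
    have := Real.log_nonneg hN1
    have := Real.pi_pos
    positivity
  · have hbpos : 0 < b N := by
      have h5 := h2 N hN
      have h6 : 0 < a N ^ (m + 1) := by positivity
      by_contra h7
      have h8 : b N = 0 := le_antisymm (not_lt.1 h7) (hb N)
      rw [h8, mul_zero] at h5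
      linarith
    have e1 : Real.log (b N) ≤ (m + 1 : ℝ) * Real.log (a N) := by
      have := Real.log_le_log hbpos (h1 N hN)
      rw [Real.log_pow] at this
      push_cast at this
      exact this
    have e2 : (m + 1 : ℝ) * Real.log (a N) ≤ 2 * k * Real.log N + Real.log (b N) := by
      have := Real.log_le_log (by positivity) (h2 N hN)
      rw [Real.log_pow, Real.log_mul (by positivity) hbpos.ne', Real.log_pow, Real.log_pow] at this
      push_cast at this
      linarith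
    have e3 : 2 * Real.pi / N * Real.log (b N) - (m + 1 : ℝ) * (2 * Real.pi / N * Real.log (a N)) =
        2 * Real.pi / N * (Real.log (b N) - (m + 1 : ℝ) * Real.log (a N)) := by ring
    have hp : 0 < 2 * Real.pi / N := by
      have := Real.pi_pos
      positivity
    rw [e3, norm_mul, Real.norm_eq_abs, Real.norm_eq_abs, abs_of_pos hp,
      abs_of_nonpos (by linarith)]
    have e4 : (4 * Real.pi * k) * (Real.log N / N) = 2 * Real.pi / N * (2 * k * Real.log N) := by
      field_simp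
      ring
    rw [e4]
    exact mul_le_mul_of_nonneg_left (by linarith) hp.le

end Pool.Agent.Q66.BS
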