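import Pool.Agent.Q66.BS.Mul

/-!
# The gluing formula over the full twists
-/

set_option autoImplicit false

namespace Pool.Agent.Q66.BS

open Finset Matrix Pool.Agent.W715.VC Pool.Agent.H550R3.Jones Pool.Agent.Q66.TG
open Pool.Agent.W709.QAT (Piece run cup cap kap Diag)

variable {N : ℕ}

/-- the root of unity `q` -/
noncomputable def om (N : ℕ) : ℂ := rt N ^ 2

/-- the eigenvalue of the full twist -/
noncomputable def zz (N s : ℕ) : ℂ := om N ^ (1 + s * (s + 1))

lemma om_ne (N : ℕ) : om N ≠ 0 := pow_ne_zero _ (rt_ne N)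

lemma zz_ne (N s : ℕ) : zz N s ≠ 0 := pow_ne_zero _ (om_ne N)

lemma norm_om (N : ℕ) : ‖om N‖ = 1 := by rw [om, norm_pow, norm_rt, one_pow]

lemma norm_zz (N s : ℕ) : ‖zz N s‖ = 1 := by rw [zz, norm_pow, norm_om, one_pow]

lemma om_pow (hN : 0 < N) : om N ^ N = 1 := by
  rw [om, ← pow_mul, mul_comm, pow_mul, rt_pow_N hN]
  norm_num

lemma om_prim (hN : 0 < N) : IsPrimitiveRoot (om N) N := by
  refine IsPrimitiveRoot.mk_of_lt _ hN (om_pow hN) fun k h0 h1 => ?_
  have h := q_pow_ne h0 h1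
  have e : rt N ^ (2 : ℤ) = om N := by
    unfold om
    exact_mod_cast rfl
  rwa [e] at h

lemma zz_pow (hN : 0 < N) (s : ℕ) : zz N s ^ N = 1 := by
  rw [zz, ← pow_mul, mul_comm, pow_mul, om_pow hN, one_pow]

lemma zz_eq_iff (hN : 0 < N) (s s' : ℕ) :
    zz N s = zz N s' ↔ s * (s + 1) ≡ s' * (s' + 1) [MOD N] := by
  have h1 : zz N s = zz N s' ↔
      om N ^ (((1 + s' * (s' + 1) : ℕ) : ℤ) - ((1 + s * (s + 1) : ℕ) : ℤ)) = 1 := by
    rw [zpow_sub₀ (om_ne N), zpow_natCast, zpow_natCast,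
      div_eq_one_iff_eq (pow_ne_zero _ (om_ne N))]
    exact eq_comm
  rw [h1, (om_prim hN).zpow_eq_one_iff_dvd, ← Nat.modEq_iff_dvd]
  exact ⟨fun h => Nat.ModEq.add_left_cancel' _ h, fun h => h.add_left _⟩

/-- the full twists, with sign -/
def TD (k : ℤ) : Diag := twD (decide (0 ≤ k)) (2 * k.natAbs)

lemma T22_TD (k : ℤ) : T22 (TD k) := T22_tw _ _

lemma good_QQ : Good (QQ N) := ⟨QQ_EE, fun p q h => by
  by_cases h0 : 0 < N
  · have h1 := opM_tw h0 false 1
    rw [pow_one] at h1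
    have h2 := (good_opM h0 (T22_tw false 1)).wt p q
    rw [h1] at h2
    exact h2 h
  · exact absurd p.1.isLt (by omega)⟩

lemma ev_QQ {s : ℕ} (h : Has N s) : ev s (QQ N) = (ev s (PP N))⁻¹ := by
  have h1 := ev_mul s (good_QQ (N := N)) good_PP
  rw [QQ_PP, ev_one h] at h1
  exact eq_inv_of_mul_eq_one_left h1.symm

lemma ev_TD (hN : 0 < N) {s : ℕ} (hs : s < N) (k : ℤ) : ev s (opM N (TD k)) = zz N s ^ k := by
  have h := has hN hs
  have hz : ev s (PP N) ^ 2 = zz N s := by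
    rw [ev_PP_sq h, zz, om, pow_add, pow_one]
  unfold TD
  rw [opM_tw hN]
  by_cases hk : 0 ≤ k
  · rw [decide_eq_true hk, if_pos rfl, ev_pow h good_PP, pow_mul, hz]
    obtain ⟨n, rfl⟩ := Int.eq_ofNat_of_zero_le hk
    simp
  · rw [decide_eq_false hk]
    simp only [Bool.false_eq_true, if_false]
    rw [ev_pow h good_QQ, ev_QQ h, pow_mul, inv_pow, hz]
    obtain ⟨n, rfl⟩ := Int.eq_negSucc_of_lt_zero (not_le.1 hk)
    simp [zpow_negSucc]

/-- the invariant of the closure with a belt and `k` full twists -/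
noncomputable def jk (hN : 0 < N) (A : Diag) (k : ℤ) : ℂ := bv hN (A ++ TD k)

/-- the characters of a tangle -/
noncomputable def ee (N : ℕ) (A : Diag) (s : ℕ) : ℂ := ev s (opM N A)

lemma bv_sum (hN : 0 < N) {A : Diag} (hA : T22 A) :
    bv hN A = om N * (N * ∑ s ∈ range N, ee N A s) := by
  rw [bv_eq hN hA, trace_sum hN (good_opM hN hA)]
  rfl

lemma ee_append (hN : 0 < N) {A B : Diag} (hA : T22 A) (hB : T22 B) (s : ℕ) :
    ee N (A ++ B) s = ee N A s * ee N B s := by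
  unfold ee
  rw [opM_append hN hA hB, ev_mul s (good_opM hN hB) (good_opM hN hA), mul_comm]

lemma ee_refl (hN : 0 < N) {A : Diag} (hA : T22 A) {s : ℕ} (h : s < N) :
    ee N A (N - 1 - s) = ee N A s := ev_refl hN (good_opM hN hA) (good_sh hN hA) h

theorem jk_sum (hN : 0 < N) {A : Diag} (hA : T22 A) (k : ℤ) :
    jk hN A k = om N * (N * ∑ s ∈ range N, zz N s ^ k * ee N A s) := by
  unfold jk
  rw [bv_sum hN (T22_append hA (T22_TD k))]
  congr 2
  refine sum_congr rfl fun s hs => ?_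
  rw [ee_append hN hA (T22_TD k), mul_comm]
  congr 1
  exact ev_TD hN (mem_range.1 hs) k

lemma jk_zero (hN : 0 < N) {A : Diag} (hA : T22 A) : jk hN A 0 = bv hN A := by
  rw [jk_sum hN hA, bv_sum hN hA]
  simp

/-- periodicity -/
theorem jk_period (hN : 0 < N) {A : Diag} (hA : T22 A) (k l : ℤ) :
    jk hN A (k + l * N) = jk hN A k := by
  rw [jk_sum hN hA, jk_sum hN hA]
  congr 2
  refine sum_congr rfl fun s _ => ?_
  rw [zpow_add₀ (zz_ne N s), mul_comm l, _root_.zpow_mul, zpow_natCast, zz_pow hN,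
    _root_.one_zpow, mul_one]

/-! ### orthogonality -/

lemma geom (hN : 0 < N) (s s' : ℕ) :
    ∑ k ∈ range N, zz N s ^ (k : ℤ) * zz N s' ^ (-(k : ℤ)) =
      if s * (s + 1) ≡ s' * (s' + 1) [MOD N] then (N : ℂ) else 0 := by
  have h1 : ∀ k ∈ range N, zz N s ^ (k : ℤ) * zz N s' ^ (-(k : ℤ)) = (zz N s / zz N s') ^ k := by
    intro k _
    rw [_root_.zpow_neg, zpow_natCast, zpow_natCast, div_pow, div_eq_mul_inv]
  rw [sum_congr rfl h1]
  by_cases h : s * (s + 1) ≡ s' * (s' + 1) [MOD N]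
  · rw [if_pos h, (zz_eq_iff hN s s').2 h, div_self (zz_ne N s')]
    simp
  · rw [if_neg h]
    have h2 : zz N s / zz N s' ≠ 1 := by
      intro h3
      exact h ((zz_eq_iff hN s s').1 ((div_eq_one_iff_eq (zz_ne N s')).1 h3))
    rw [geom_sum_eq h2, div_pow, zz_pow hN, zz_pow hN]
    simp

/-- **the sum over the twists, for arbitrary coefficients** -/
theorem twist_sum (hN : 0 < N) (a b : ℕ → ℂ) :
    ∑ k ∈ range N, (∑ s ∈ range N, zz N s ^ (k : ℤ) * a s) *
      (∑ s ∈ range N, zz N s ^ (-(k : ℤ)) * b s) =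
      N * ∑ s ∈ range N, a s * ∑ s' ∈ (range N).filter
        (fun s' => s * (s + 1) ≡ s' * (s' + 1) [MOD N]), b s' := by
  have h1 : ∀ k ∈ range N, (∑ s ∈ range N, zz N s ^ (k : ℤ) * a s) *
      (∑ s ∈ range N, zz N s ^ (-(k : ℤ)) * b s) =
      ∑ s ∈ range N, ∑ s' ∈ range N, (zz N s ^ (k : ℤ) * zz N s' ^ (-(k : ℤ))) * (a s * b s') := by
    intro k _
    rw [sum_mul_sum]
    exact sum_congr rfl fun s _ => sum_congr rfl fun s' _ => by ring
  rw [sum_congr rfl h1, sum_comm, mul_sum]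
  refine sum_congr rfl fun s _ => ?_
  rw [sum_comm, sum_filter, mul_sum, mul_sum]
  refine sum_congr rfl fun s' _ => ?_
  rw [← sum_mul, geom hN]
  split_ifs <;> ring

/-! ### the classes -/

/-- the classes are as small as possible -/
def Sep (N : ℕ) : Prop := ∀ s s' : ℕ, s < N → s' < N →
  s * (s + 1) ≡ s' * (s' + 1) [MOD N] → s = s' ∨ s + s' + 1 = N

lemma modEq_dvd {s s' : ℕ} (h : s * (s + 1) ≡ s' * (s' + 1) [MOD N]) :
    (N : ℤ) ∣ ((s' : ℤ) - s) * (s + s' + 1) := by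
  have h1 := (Nat.modEq_iff_dvd.1 h)
  push_cast at h1
  have e : ((s' : ℤ) - s) * (s + s' + 1) = s' * (s' + 1) - s * (s + 1) := by ring
  rw [e]
  exact h1

lemma small_dvd {s s' : ℕ} (hs : s < N) (hs' : s' < N) (h : (N : ℤ) ∣ (s' : ℤ) - s) : s = s' := by
  have h1 : |(s' : ℤ) - s| < N := by
    rw [abs_lt]
    constructor <;> omega
  have h2 := Int.eq_zero_of_abs_lt_dvd h h1
  omega

lemma small_dvd' {s s' : ℕ} (hs : s < N) (hs' : s' < N) (h : (N : ℤ) ∣ (s : ℤ) + s' + 1) :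
    s + s' + 1 = N := by
  obtain ⟨c, hc⟩ := h
  have h1 : 0 < c := by
    by_contra h2
    have : (N : ℤ) * c ≤ 0 := mul_nonpos_of_nonneg_of_nonpos (by omega) (by omega)
    omega
  have h2 : c < 2 := by
    by_contra h3
    have : (N : ℤ) * 2 ≤ N * c := mul_le_mul_of_nonneg_left (by omega) (by omega)
    omega
  have h3 : c = 1 := by omega
  rw [h3, mul_one] at hc
  omega

theorem sep_prime (h : N.Prime) : Sep N := by
  intro s s' hs hs' h1
  have h2 := modEq_dvd h1
  rcases (Nat.prime_iff_prime_int.1 h).dvd_or_dvd h2 with h3 | h3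
  · exact Or.inl (small_dvd hs hs' h3)
  · exact Or.inr (small_dvd' hs hs' h3)

theorem sep_two (m : ℕ) (h : N = 2 ^ m) : Sep N := by
  intro s s' hs hs' h1
  have h2 := modEq_dvd h1
  rcases Nat.even_or_odd (s + s') with he | ho
  · left
    refine small_dvd hs hs' ?_
    have hc : IsCoprime (N : ℤ) ((s : ℤ) + s' + 1) := by
      rw [h]
      push_cast
      apply IsCoprime.pow_left
      obtain ⟨c, hc⟩ := he
      refine ⟨-c, 1, ?_⟩
      have : (s : ℤ) + s' = c + c := by exact_mod_cast hc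
      linear_combination this
    exact hc.dvd_of_dvd_mul_right h2
  · right
    refine small_dvd' hs hs' ?_
    have hc : IsCoprime (N : ℤ) ((s' : ℤ) - s) := by
      rw [h]
      push_cast
      apply IsCoprime.pow_left
      obtain ⟨c, hc⟩ := ho
      refine ⟨(s : ℤ) - c, 1, ?_⟩
      have : (s : ℤ) + s' = 2 * c + 1 := by exact_mod_cast hc
      linear_combination this
    exact hc.dvd_of_dvd_mul_left h2

lemma class_eq (hS : Sep N) {s : ℕ} (hs : s < N) :
    (range N).filter (fun s' => s * (s + 1) ≡ s' * (s' + 1) [MOD N]) = {s, N - 1 - s} := by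
  ext s'
  rw [mem_filter, mem_range, mem_insert, mem_singleton]
  constructor
  · rintro ⟨h1, h2⟩
    rcases hS s s' hs h1 h2 with h3 | h3
    · exact Or.inl h3.symm
    · right
      omega
  · rintro (rfl | rfl)
    · exact ⟨hs, Nat.ModEq.refl _⟩
    · refine ⟨by omega, ?_⟩
      rw [Nat.modEq_iff_dvd]
      obtain ⟨r, hr⟩ : ∃ r, N = s + 1 + r := ⟨N - (s + 1), by omega⟩
      have e1 : N - 1 - s = r := by omega
      rw [e1, hr]
      refine ⟨(r : ℤ) - s, ?_⟩
      push_cast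
      ring

/-- the sum of a symmetric function over a class -/
lemma class_sum (hS : Sep N) {b : ℕ → ℂ} (hb : ∀ s, s < N → b (N - 1 - s) = b s) {s : ℕ}
    (hs : s < N) : ∑ s' ∈ (range N).filter (fun s' => s * (s + 1) ≡ s' * (s' + 1) [MOD N]), b s' =
      (2 - if 2 * s + 1 = N then 1 else 0) * b s := by
  rw [class_eq hS hs]
  by_cases h : 2 * s + 1 = N
  · have e : N - 1 - s = s := by omega
    rw [e, if_pos h, insert_eq_of_mem (mem_singleton_self _), sum_singleton]
    ring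
  · rw [if_neg h, sum_pair (by omega), hb s hs]
    ring

end Pool.Agent.Q66.BS
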