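import Pool.Agent.Q66.BS.Stb

/-!
# Limits: roots of the invariants of the coverings, and comparison of growth rates
-/

set_option autoImplicit false

namespace Pool.Agent.Q66.BS

open Finset Filter Topology Pool.Agent.Q66.TG
open Pool.Agent.W709.QAT (Piece run cup cap kap Diag)

lemma root_tendsto {E K : ℝ} (hK : 0 < K) :
    Tendsto (fun j : ℕ => K ^ (1 / (j : ℝ)) * E) atTop (𝓝 E) := by
  have h1 : Tendsto (fun j : ℕ => K ^ (1 / (j : ℝ))) atTop (𝓝 (K ^ (0 : ℝ))) :=
    tendsto_const_nhds.rpow tendsto_one_div_atTop_nhds_zero_nat (Or.inl hK.ne')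
  rw [Real.rpow_zero] at h1
  simpa using h1.mul_const E

lemma root_eq {E K : ℝ} (hE : 0 ≤ E) (hK : 0 ≤ K) {j : ℕ} (hj : 1 ≤ j) :
    (K * E ^ j) ^ (1 / (j : ℝ)) = K ^ (1 / (j : ℝ)) * E := by
  have hj' : (j : ℝ) ≠ 0 := by
    have : 0 < j := hj
    positivity
  rw [Real.mul_rpow hK (pow_nonneg hE j), ← Real.rpow_natCast E, ← Real.rpow_mul hE,
    mul_one_div_cancel hj', Real.rpow_one]

/-- **the growth rate of a sequence** -/
theorem limsup_root {x : ℕ → ℝ} {E C c : ℝ} (hx : ∀ j, 0 ≤ x j) (hE : 0 ≤ E) (hC : 0 < C)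
    (hc : 0 < c) (h1 : ∀ j, x j ≤ C * E ^ j) (h2 : ∀ i : ℕ, ∃ j, i ≤ j ∧ c * E ^ j ≤ x j) :
    limsup (fun j : ℕ => x j ^ (1 / (j : ℝ))) atTop = E := by
  have hup : ∀ᶠ j : ℕ in atTop, x j ^ (1 / (j : ℝ)) ≤ C ^ (1 / (j : ℝ)) * E := by
    filter_upwards [eventually_ge_atTop 1] with j hj
    rw [← root_eq hE hC.le hj]
    exact Real.rpow_le_rpow (hx j) (h1 j) (by positivity)
  have hbd : IsBoundedUnder (· ≤ ·) atTop (fun j : ℕ => x j ^ (1 / (j : ℝ))) :=
    (root_tendsto (E := E) hC).isBoundedUnder_le.mono_le hup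
  have hco : IsCoboundedUnder (· ≤ ·) atTop (fun j : ℕ => x j ^ (1 / (j : ℝ))) :=
    isCoboundedUnder_le_of_le atTop (x := 0) fun j => Real.rpow_nonneg (hx j) _
  apply le_antisymm
  · refine (limsup_le_limsup hup hco (root_tendsto (E := E) hC).isBoundedUnder_le).trans ?_
    exact (root_tendsto (E := E) hC).limsup_eq.le
  · refine le_of_forall_pos_le_add fun δ hδ => ?_
    rw [← sub_le_iff_le_add]
    refine le_limsup_of_frequently_le (frequently_atTop.2 fun i => ?_) hbd
    have h3 : ∀ᶠ j : ℕ in atTop, E - δ < c ^ (1 / (j : ℝ)) * E :=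
      (root_tendsto (E := E) hc).eventually_const_lt (by linarith)
    obtain ⟨j₀, hj₀⟩ := eventually_atTop.1 h3
    obtain ⟨j, hj, h4⟩ := h2 (max (max i j₀) 1)
    have e1 : i ≤ j := le_trans (le_max_left _ _) (le_trans (le_max_left _ _) hj)
    have e2 : j₀ ≤ j := le_trans (le_max_right _ _) (le_trans (le_max_left _ _) hj)
    have e3 : 1 ≤ j := le_trans (le_max_right _ _) hj
    refine ⟨j, e1, (hj₀ j e2).le.trans ?_⟩
    rw [← root_eq hE hc.le e3]
    exact Real.rpow_le_rpow (by positivity) h4 (by positivity)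

/-- the maximum of the characters is the growth rate in the degree of the covering -/
theorem limsup_bv {N : ℕ} (hN : 0 < N) {A : Diag} (hA : T22 A) :
    limsup (fun j : ℕ => ‖bv hN (pw A j)‖ ^ (1 / (j : ℝ))) atTop = mx hN A := by
  have hN' : (0 : ℝ) < N := by exact_mod_cast hN
  refine limsup_root (C := (N : ℝ) ^ 2) (c := (N : ℝ) / 2) (fun j => norm_nonneg _)
    (mx_nonneg hN A) (by positivity) (by positivity) (fun j => ?_) fun i => ?_
  · have h := bv_le hN (T22_pw hA j)
    rwa [mx_pw hN hA] at h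
  · obtain ⟨j, h1, _, h3⟩ := exists_large hN (T22_pw hA (i + 1))
    refine ⟨(i + 1) * j, ?_, ?_⟩
    · nlinarith
    · rw [mx_pw hN hA, ← pow_mul] at h3
      have e : ∀ j : ℕ, pw (pw A (i + 1)) j = pw A ((i + 1) * j) := by
        intro j
        induction j with
        | zero => rfl
        | succ j ih =>
          rw [pw_succ, ih, Nat.mul_succ]
          unfold pw
          rw [← List.flatten_append, List.replicate_append_replicate, add_comm]
      rwa [e j] at h3

/-- **comparison of growth rates** -/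
theorem growth_cmp {S : Set ℕ} {a b : ℕ → ℝ} {m c : ℕ} (hm : 1 ≤ m) (ha : ∀ N, 0 ≤ a N)
    (hb : ∀ N, 0 ≤ b N) (h1 : ∀ N ∈ S, 0 < N → b N ≤ (N : ℝ) ^ c * a N ^ m)
    (h2 : ∀ N ∈ S, 0 < N → a N ^ m ≤ (N : ℝ) ^ c * b N) :
    Tendsto (fun N : ℕ => 2 * Real.pi / N * Real.log (b N) -
      m * (2 * Real.pi / N * Real.log (a N))) (atTop ⊓ 𝓟 S) (𝓝 0) := by
  have hlog : Tendsto (fun N : ℕ => (2 * Real.pi * c) * (Real.log N / N)) (atTop ⊓ 𝓟 S) (𝓝 0) := by
    have h3 : Tendsto (fun x : ℝ => Real.log x / x) atTop (𝓝 0) := by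
      have := Real.isLittleO_log_id_atTop.tendsto_div_nhds_zero
      exact this
    have h4 := (h3.comp tendsto_natCast_atTop_atTop).const_mul (2 * Real.pi * c)
    rw [mul_zero] at h4
    exact h4.mono_left inf_le_left
  refine squeeze_zero_norm' ?_ hlog
  have hev : ∀ᶠ N : ℕ in atTop ⊓ 𝓟 S, 0 < N ∧ N ∈ S :=
    ((eventually_gt_atTop 0).filter_mono inf_le_left).and
      (mem_inf_of_right (mem_principal_self S))
  filter_upwards [hev] with N hN
  obtain ⟨hN, hS⟩ := hN
  have hN' : (0 : ℝ) < N := by exact_mod_cast hN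
  have hN1 : (1 : ℝ) ≤ N := by exact_mod_cast hN
  rcases (ha N).eq_or_lt with h0 | h0
  · have hb0 : b N = 0 := by
      have h5 := h1 N hS hN
      rw [← h0, zero_pow (by omega), mul_zero] at h5
      exact le_antisymm h5 (hb N)
    rw [hb0, ← h0, Real.log_zero, mul_zero, mul_zero, sub_zero, norm_zero]
    have := Real.log_nonneg hN1
    have := Real.pi_pos
    positivity
  · have hbpos : 0 < b N := by
      have h5 := h2 N hS hN
      have h6 : 0 < a N ^ m := by positivity
      by_contra h7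
      have h8 : b N = 0 := le_antisymm (not_lt.1 h7) (hb N)
      rw [h8, mul_zero] at h5
      linarith
    have e1 : Real.log (b N) ≤ c * Real.log N + m * Real.log (a N) := by
      have := Real.log_le_log hbpos (h1 N hS hN)
      rwa [Real.log_mul (by positivity) (by positivity), Real.log_pow, Real.log_pow] at this
    have e2 : m * Real.log (a N) ≤ c * Real.log N + Real.log (b N) := by
      have := Real.log_le_log (by positivity) (h2 N hS hN)
      rwa [Real.log_pow, Real.log_mul (by positivity) hbpos.ne', Real.log_pow] at this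
    have e3 : 2 * Real.pi / N * Real.log (b N) - m * (2 * Real.pi / N * Real.log (a N)) =
        2 * Real.pi / N * (Real.log (b N) - m * Real.log (a N)) := by ring
    have hp : 0 < 2 * Real.pi / N := by
      have := Real.pi_pos
      positivity
    rw [e3, norm_mul, Real.norm_eq_abs, Real.norm_eq_abs, abs_of_pos hp]
    have e4 : (2 * Real.pi * c) * (Real.log N / N) = 2 * Real.pi / N * (c * Real.log N) := by
      field_simp
    rw [e4]
    exact mul_le_mul_of_nonneg_left (abs_le.2 ⟨by linarith, by linarith⟩) hp.le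

/-- growth rates -/
theorem growth_iff {S : Set ℕ} {a b : ℕ → ℝ} {m c : ℕ} (hm : 1 ≤ m) (ha : ∀ N, 0 ≤ a N)
    (hb : ∀ N, 0 ≤ b N) (h1 : ∀ N ∈ S, 0 < N → b N ≤ (N : ℝ) ^ c * a N ^ m)
    (h2 : ∀ N ∈ S, 0 < N → a N ^ m ≤ (N : ℝ) ^ c * b N) (V : ℝ) :
    Tendsto (fun N : ℕ => 2 * Real.pi / N * Real.log (a N)) (atTop ⊓ 𝓟 S) (𝓝 V) ↔
      Tendsto (fun N : ℕ => 2 * Real.pi / N * Real.log (b N)) (atTop ⊓ 𝓟 S) (𝓝 (m * V)) := by
  have key := growth_cmp hm ha hb h1 h2
  have hm' : (m : ℝ) ≠ 0 := by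
    have : 0 < m := hm
    positivity
  constructor
  · intro h
    have h3 := key.add (h.const_mul (m : ℝ))
    rw [zero_add] at h3
    exact h3.congr fun N => by ring
  · intro h
    have h3 := (h.sub key).const_mul ((m : ℝ)⁻¹)
    refine (h3.congr fun N => ?_).trans (le_of_eq ?_)
    · field_simp
      ring
    · congr 1
      field_simp
      ring

end Pool.Agent.Q66.BS
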