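import Pool.Agent.Q66.TG.Gram

/-!
# The trace of an operator on two strands which commutes with `E`
-/

set_option autoImplicit false

namespace Pool.Agent.Q66.BS

open Finset Matrix Pool.Agent.W715.VC Pool.Agent.H550R3.Jones Pool.Agent.Q66.TG

/-- Additivity of the trace (as in `Pool.Agent.Q135.TR.Base`). -/
theorem trace_exact {A B C : Type} [AddCommGroup A] [Module ℂ A] [AddCommGroup B]
    [Module ℂ B] [AddCommGroup C] [Module ℂ C] [FiniteDimensional ℂ A] [FiniteDimensional ℂ B]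
    [FiniteDimensional ℂ C] (φ : A →ₗ[ℂ] B) (ψ : B →ₗ[ℂ] C) (hφ : Function.Injective φ)
    (hψ : Function.Surjective ψ) (hex : Function.Exact φ ψ) (SA : A →ₗ[ℂ] A) (SB : B →ₗ[ℂ] B)
    (SC : C →ₗ[ℂ] C) (h1 : ∀ a, φ (SA a) = SB (φ a)) (h2 : ∀ b, ψ (SB b) = SC (ψ b)) :
    LinearMap.trace ℂ B SB = LinearMap.trace ℂ A SA + LinearMap.trace ℂ C SC := by
  obtain ⟨j, hj⟩ := LinearMap.exists_rightInverse_of_surjective ψ (LinearMap.range_eq_top.2 hψ)
  have hjx : ∀ x, ψ (j x) = x := fun x => LinearMap.congr_fun hj x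
  have hmem : ∀ x, ∃ a, φ a = x - j (ψ x) := by
    intro x
    apply (hex _).1
    rw [map_sub, hjx, sub_self]
  choose p hp using hmem
  let π : B →ₗ[ℂ] A :=
    { toFun := p
      map_add' := by
        intro x y
        apply hφ
        rw [hp, map_add, map_add, map_add, hp, hp]
        abel
      map_smul' := by
        intro c x
        apply hφ
        rw [hp, map_smul, map_smul, RingHom.id_apply, map_smul, hp, smul_sub] }
  have hπ : ∀ x, φ (π x) = x - j (ψ x) := hp
  have hπφ : ∀ a, π (φ a) = a := by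
    intro a
    apply hφ
    rw [hπ, hex.apply_apply_eq_zero, map_zero, sub_zero]
  have hsplit : SB = (SB ∘ₗ φ) ∘ₗ π + (SB ∘ₗ j) ∘ₗ ψ := by
    ext x
    simp only [LinearMap.add_apply, LinearMap.comp_apply]
    rw [hπ, map_sub]
    abel
  have e1 : π ∘ₗ (SB ∘ₗ φ) = SA := by
    ext x
    rw [LinearMap.comp_apply, LinearMap.comp_apply, ← h1, hπφ]
  have e2 : ψ ∘ₗ (SB ∘ₗ j) = SC := by
    ext x
    rw [LinearMap.comp_apply, LinearMap.comp_apply, h2, hjx]
  conv_lhs => rw [hsplit]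
  rw [map_add, LinearMap.trace_comp_comm', e1, LinearMap.trace_comp_comm', e2]

variable {N : ℕ}

/-- the vectors on two strands of a given weight -/
def Ws (N t : ℕ) : Submodule ℂ (Fin N × Fin N → ℂ) where
  carrier := {x | ∀ p, x p ≠ 0 → (p.1 : ℕ) + p.2 = t}
  zero_mem' := fun p h => absurd rfl h
  add_mem' := by
    intro x y hx hy p h
    by_contra hne
    have h1 : x p = 0 := by
      by_contra h1
      exact hne (hx p h1)
    have h2 : y p = 0 := by
      by_contra h2
      exact hne (hy p h2)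
    apply h
    rw [Pi.add_apply, h1, h2, add_zero]
  smul_mem' := by
    intro c x hx p h
    refine hx p fun h1 => h ?_
    rw [Pi.smul_apply, h1, smul_zero]

lemma mem_Ws {t : ℕ} {x : Fin N × Fin N → ℂ} :
    x ∈ Ws N t ↔ ∀ p, x p ≠ 0 → (p.1 : ℕ) + p.2 = t := Iff.rfl

/-- operators which commute with `E` and preserve the weight -/
structure Good (M : M2 N) : Prop where
  comm : M * EE N = EE N * M
  wt : ∀ p q, M p q ≠ 0 → (p.1 : ℕ) + p.2 = q.1 + q.2

lemma Good.one : Good (1 : M2 N) := ⟨by rw [one_mul, mul_one], fun p q h => by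
  rw [Matrix.one_apply] at h
  split_ifs at h with h1
  · rw [h1]
  · exact absurd rfl h⟩

lemma Good.mul {A B : M2 N} (hA : Good A) (hB : Good B) : Good (A * B) := ⟨by
    rw [Matrix.mul_assoc, hB.comm, ← Matrix.mul_assoc, hA.comm, Matrix.mul_assoc], fun p q h => by
    rw [Matrix.mul_apply] at h
    obtain ⟨r, _, hr⟩ := exists_ne_zero_of_sum_ne_zero h
    rw [hA.wt p r (left_ne_zero_of_mul hr), hB.wt r q (right_ne_zero_of_mul hr)]⟩

lemma Good.pow {A : M2 N} (hA : Good A) (n : ℕ) : Good (A ^ n) := by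
  induction n with
  | zero => rw [pow_zero]; exact Good.one
  | succ n ih => rw [pow_succ]; exact ih.mul hA

lemma Good.mem {M : M2 N} (hM : Good M) {t : ℕ} {x : Fin N × Fin N → ℂ} (hx : x ∈ Ws N t) :
    M *ᵥ x ∈ Ws N t := by
  intro p h
  obtain ⟨q, _, hq⟩ := exists_ne_zero_of_sum_ne_zero h
  rw [hM.wt p q (left_ne_zero_of_mul hq), hx q (right_ne_zero_of_mul hq)]

lemma E_mem {t : ℕ} {x : Fin N × Fin N → ℂ} (hx : x ∈ Ws N (t + 1)) : EE N *ᵥ x ∈ Ws N t := by
  intro p h
  obtain ⟨a, b⟩ := p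
  obtain ⟨q, _, hq⟩ := exists_ne_zero_of_sum_ne_zero h
  have h1 := hx q (right_ne_zero_of_mul hq)
  have h2 : EE N (a, b) q ≠ 0 := left_ne_zero_of_mul hq
  rw [EE_apply] at h2
  dsimp only
  by_cases h3 : Eo N a q.1 * (if b = q.2 then k1 b else 0) = 0
  · rw [h3, zero_add] at h2
    have h4 := Eo_ne (right_ne_zero_of_mul h2)
    have h5 := left_ne_zero_of_mul h2
    have h6 : a = q.1 := by
      by_contra h7
      rw [if_neg h7] at h5
      exact h5 rfl
    rw [h6]
    omega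
  · have h4 := Eo_ne (left_ne_zero_of_mul h3)
    have h5 := right_ne_zero_of_mul h3
    have h6 : b = q.2 := by
      by_contra h7
      rw [if_neg h7] at h5
      exact h5 rfl
    rw [h6]
    omega

lemma E_zero {x : Fin N × Fin N → ℂ} (hx : x ∈ Ws N 0) : EE N *ᵥ x = 0 := by
  funext p
  obtain ⟨a, b⟩ := p
  by_contra h
  obtain ⟨q, _, hq⟩ := exists_ne_zero_of_sum_ne_zero h
  have h1 := hx q (right_ne_zero_of_mul hq)
  have h2 : EE N (a, b) q ≠ 0 := left_ne_zero_of_mul hq
  rw [EE_apply] at h2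
  by_cases h3 : Eo N a q.1 * (if b = q.2 then k1 b else 0) = 0
  · rw [h3, zero_add] at h2
    have h4 := Eo_ne (right_ne_zero_of_mul h2)
    omega
  · have h4 := Eo_ne (left_ne_zero_of_mul h3)
    omega

lemma Eo_succ_ne {a a' : Fin N} (h : (a' : ℕ) = a + 1) : Eo N a a' ≠ 0 := by
  unfold Eo irr
  dsimp only
  rw [if_pos h]
  have h1 := a'.isLt
  have h2 := adm' N
  have h3 := h2.2 (N - (a' : ℕ)) (by omega) (by omega)
  have h4 : ((N - (a' : ℕ) : ℕ) : ℤ) = (N : ℤ) - (a' : ℕ) := by omega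
  rw [← h4]
  exact h3

lemma k1_ne (a : Fin N) : k1 a ≠ 0 := zpow_ne_zero _ (rt_ne N)

/-- A vector in the kernel of `E` vanishes if its first coordinate does. -/
lemma ker_zero {x : Fin N × Fin N → ℂ} (hE : EE N *ᵥ x = 0)
    (h0 : ∀ a b : Fin N, (a : ℕ) = 0 → x (a, b) = 0) : x = 0 := by
  have key : ∀ n : ℕ, ∀ a b : Fin N, (a : ℕ) = n → x (a, b) = 0 := by
    intro n
    induction n with
    | zero => exact h0
    | succ n ih =>
      intro a b ha
      by_contra hne
      have h1 : n < N := by have := a.isLt; omega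
      have h2 := congrFun hE (⟨n, h1⟩, b)
      have h3 : (EE N *ᵥ x) (⟨n, h1⟩, b) = (∑ a', Eo N ⟨n, h1⟩ a' * x (a', b)) * k1 b +
          ∑ b', Eo N b b' * x (⟨n, h1⟩, b') := EE_sum _ _ x
      rw [h3, Pi.zero_apply, sum_eq_single a, sum_eq_zero fun b' _ => by rw [ih _ b' rfl, mul_zero],
        add_zero] at h2
      · have h4 : Eo N ⟨n, h1⟩ a ≠ 0 := Eo_succ_ne ha
        rcases mul_eq_zero.1 h2 with h5 | h5
        · rcases mul_eq_zero.1 h5 with h6 | h6
          · exact h4 h6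
          · exact hne h6
        · exact k1_ne b h5
      · intro a' _ ha'
        by_cases h4 : Eo N ⟨n, h1⟩ a' = 0
        · rw [h4, zero_mul]
        · exfalso
          apply ha'
          have h5 := Eo_ne h4
          exact Fin.ext (by rw [h5, ha])
      · intro h
        exact absurd (mem_univ _) h
  funext p
  exact key _ p.1 p.2 rfl

/-! ### the highest weight vectors -/

/-- there is a highest weight vector of weight `t` -/
def Has (N t : ℕ) : Prop := ∃ x ∈ Ws N t, EE N *ᵥ x = 0 ∧ x ≠ 0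

open Classical in
/-- the highest weight vector of weight `t`, or zero -/
noncomputable def hw (N t : ℕ) : Fin N × Fin N → ℂ := if h : Has N t then h.choose else 0

lemma hw_mem (t : ℕ) : hw N t ∈ Ws N t := by
  unfold hw
  split_ifs with h
  · exact h.choose_spec.1
  · exact Submodule.zero_mem _

lemma hw_E (t : ℕ) : EE N *ᵥ hw N t = 0 := by
  unfold hw
  split_ifs with h
  · exact h.choose_spec.2.1
  · exact Matrix.mulVec_zero _

lemma hw_ne {t : ℕ} (h : Has N t) : hw N t ≠ 0 := by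
  unfold hw
  rw [dif_pos h]
  exact h.choose_spec.2.2

lemma Has.lt {t : ℕ} (h : Has N t) : t < N := by
  by_contra hlt
  apply hw_ne h
  refine ker_zero (hw_E t) fun a b ha => ?_
  by_contra hne
  have h1 := hw_mem t (a, b) hne
  have h2 := b.isLt
  dsimp only at h1
  omega

/-- The highest weight vectors of weight `t` are the multiples of one vector. -/
lemma exists_smul {t : ℕ} {x : Fin N × Fin N → ℂ} (hx : x ∈ Ws N t) (hE : EE N *ᵥ x = 0) :
    ∃ c : ℂ, x = c • hw N t := by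
  by_cases hx0 : x = 0
  · exact ⟨0, by rw [hx0, zero_smul]⟩
  have h : Has N t := ⟨x, hx, hE, hx0⟩
  have ht := h.lt
  have hN : 0 < N := by omega
  have hc : hw N t (⟨0, hN⟩, ⟨t, ht⟩) ≠ 0 := by
    intro h0
    apply hw_ne h
    refine ker_zero (hw_E t) fun a b ha => ?_
    by_contra hne
    have h1 := hw_mem t (a, b) hne
    dsimp only at h1
    apply hne
    have ha' : a = ⟨0, hN⟩ := Fin.ext ha
    have hb' : b = ⟨t, ht⟩ := Fin.ext (by change (b : ℕ) = t; omega)
    rw [ha', hb']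
    exact h0
  refine ⟨x (⟨0, hN⟩, ⟨t, ht⟩) / hw N t (⟨0, hN⟩, ⟨t, ht⟩), ?_⟩
  rw [← sub_eq_zero]
  set c := x (⟨0, hN⟩, ⟨t, ht⟩) / hw N t (⟨0, hN⟩, ⟨t, ht⟩) with hcdef
  have hm : x - c • hw N t ∈ Ws N t := Submodule.sub_mem _ hx (Submodule.smul_mem _ _ (hw_mem t))
  refine ker_zero ?_ fun a b ha => ?_
  · rw [Matrix.mulVec_sub, Matrix.mulVec_smul, hw_E, hE, smul_zero, sub_zero]
  · by_contra hne
    have h1 := hm (a, b) hne
    dsimp only at h1
    apply hne
    have ha' : a = ⟨0, hN⟩ := Fin.ext ha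
    have hb' : b = ⟨t, ht⟩ := Fin.ext (by change (b : ℕ) = t; omega)
    rw [ha', hb', Pi.sub_apply, Pi.smul_apply, smul_eq_mul, hcdef, div_mul_cancel₀ _ hc, sub_self]

/-! ### the characters -/

lemma exists_ev {M : M2 N} (hM : Good M) (t : ℕ) : ∃ c : ℂ, M *ᵥ hw N t = c • hw N t :=
  exists_smul (hM.mem (hw_mem t)) (by
    rw [Matrix.mulVec_mulVec, ← hM.comm, ← Matrix.mulVec_mulVec, hw_E, Matrix.mulVec_zero])

open Classical in
/-- the eigenvalue of `M` on the highest weight vector -/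
noncomputable def ev (t : ℕ) (M : M2 N) : ℂ :=
  if h : Has N t ∧ ∃ c : ℂ, M *ᵥ hw N t = c • hw N t then h.2.choose else 0

lemma ev_spec {M : M2 N} (hM : Good M) (t : ℕ) : M *ᵥ hw N t = ev t M • hw N t := by
  by_cases h : Has N t
  · have h1 : Has N t ∧ ∃ c : ℂ, M *ᵥ hw N t = c • hw N t := ⟨h, exists_ev hM t⟩
    unfold ev
    rw [dif_pos h1]
    exact h1.2.choose_spec
  · have h1 : hw N t = 0 := by
      unfold hw
      rw [dif_neg h]
    rw [h1, smul_zero, Matrix.mulVec_zero]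

lemma ev_zero {t : ℕ} (h : ¬ Has N t) (M : M2 N) : ev t M = 0 := by
  unfold ev
  rw [dif_neg fun h1 => h h1.1]

lemma ev_eq {t : ℕ} (h : Has N t) {M : M2 N} (hM : Good M) {c : ℂ}
    (hc : M *ᵥ hw N t = c • hw N t) : ev t M = c := by
  have h1 := ev_spec hM t
  rw [hc] at h1
  have h2 : (c - ev t M) • hw N t = 0 := by rw [sub_smul, h1, sub_self]
  rcases smul_eq_zero.1 h2 with h3 | h3
  · exact (sub_eq_zero.1 h3).symm
  · exact absurd h3 (hw_ne h)

lemma ev_mul (t : ℕ) {A B : M2 N} (hA : Good A) (hB : Good B) :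
    ev t (A * B) = ev t A * ev t B := by
  by_cases h : Has N t
  · refine ev_eq h (hA.mul hB) ?_
    rw [← Matrix.mulVec_mulVec, ev_spec hB, Matrix.mulVec_smul, ev_spec hA, smul_smul, mul_comm]
  · rw [ev_zero h, ev_zero h, zero_mul]

lemma ev_one {t : ℕ} (h : Has N t) : ev t (1 : M2 N) = 1 :=
  ev_eq h Good.one (by rw [Matrix.one_mulVec, one_smul])

lemma ev_pow {t : ℕ} (h : Has N t) {A : M2 N} (hA : Good A) (n : ℕ) : ev t (A ^ n) = ev t A ^ n := by
  induction n with
  | zero => rw [pow_zero, pow_zero, ev_one h]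
  | succ n ih => rw [pow_succ, pow_succ, ev_mul t (hA.pow n) hA, ih]

/-! ### the filtration by the images of the powers of `E` -/

/-- the operator `E` -/
noncomputable def El (N : ℕ) : Module.End ℂ (Fin N × Fin N → ℂ) := Matrix.mulVecLin (EE N)

/-- the vectors `E^m x`, of weight `t` -/
noncomputable def U (N m t : ℕ) : Submodule ℂ (Fin N × Fin N → ℂ) :=
  (Ws N (t + m)).map (El N ^ m)

lemma El_apply (x : Fin N × Fin N → ℂ) : El N x = EE N *ᵥ x := rfl

lemma pow_mem {m t : ℕ} {x : Fin N × Fin N → ℂ} (hx : x ∈ Ws N (t + m)) :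
    (El N ^ m) x ∈ Ws N t := by
  induction m generalizing x with
  | zero => exact hx
  | succ m ih =>
    rw [pow_succ, Module.End.mul_apply]
    exact ih (E_mem hx)

lemma U_le (m t : ℕ) : U N m t ≤ Ws N t := by
  rintro _ ⟨x, hx, rfl⟩
  exact pow_mem hx

lemma U_zero (t : ℕ) : U N 0 t = Ws N t := by
  unfold U
  rw [pow_zero]
  exact Submodule.map_id _

lemma comm_pow {M : M2 N} (hM : Good M) (m : ℕ) (x : Fin N × Fin N → ℂ) :
    M *ᵥ ((El N ^ m) x) = (El N ^ m) (M *ᵥ x) := by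
  induction m generalizing x with
  | zero => rfl
  | succ m ih =>
    rw [pow_succ, Module.End.mul_apply, Module.End.mul_apply, ih, El_apply, El_apply,
      Matrix.mulVec_mulVec, Matrix.mulVec_mulVec, hM.comm]

lemma U_stable {M : M2 N} (hM : Good M) {m t : ℕ} : ∀ x ∈ U N m t, (Matrix.mulVecLin M) x ∈ U N m t := by
  rintro _ ⟨x, hx, rfl⟩
  rw [Matrix.mulVecLin_apply, comm_pow hM]
  exact ⟨_, hM.mem hx, rfl⟩

/-- the trace on `U` -/
noncomputable def tU (M : M2 N) (hM : Good M) (m t : ℕ) : ℂ :=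
  LinearMap.trace ℂ (U N m t) ((Matrix.mulVecLin M).restrict (U_stable hM))

/-- the kernel of `E` on `U` -/
noncomputable def Kr (N m t : ℕ) : Submodule ℂ (Fin N × Fin N → ℂ) := U N m t ⊓ LinearMap.ker (El N)

lemma Kr_stable {M : M2 N} (hM : Good M) {m t : ℕ} :
    ∀ x ∈ Kr N m t, (Matrix.mulVecLin M) x ∈ Kr N m t := by
  rintro x ⟨h1, h2⟩
  refine ⟨U_stable hM x h1, ?_⟩
  have h3 : EE N *ᵥ x = 0 := h2
  change EE N *ᵥ (M *ᵥ x) = 0
  rw [Matrix.mulVec_mulVec, ← hM.comm, ← Matrix.mulVec_mulVec, h3, Matrix.mulVec_zero]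

/-- on the kernel the operator is a scalar -/
lemma tKr {M : M2 N} (hM : Good M) (m t : ℕ) :
    LinearMap.trace ℂ (Kr N m t) ((Matrix.mulVecLin M).restrict (Kr_stable hM)) =
      (Module.finrank ℂ (Kr N m t) : ℂ) * ev t M := by
  have h : (Matrix.mulVecLin M).restrict (Kr_stable hM (m := m) (t := t)) =
      ev t M • LinearMap.id := by
    refine LinearMap.ext fun x => ?_
    apply Subtype.ext
    rw [LinearMap.restrict_apply, LinearMap.smul_apply, LinearMap.id_apply]
    change M *ᵥ (x : Fin N × Fin N → ℂ) = ev t M • (x : Fin N × Fin N → ℂ)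
    obtain ⟨c, hc⟩ := exists_smul (U_le m t x.2.1) x.2.2
    rw [hc, Matrix.mulVec_smul, ev_spec hM, smul_comm]
  rw [h, map_smul, LinearMap.trace_id, smul_eq_mul, mul_comm]

/-- **the recursion** -/
lemma tU_succ {M : M2 N} (hM : Good M) (m t : ℕ) :
    tU M hM m (t + 1) = (Module.finrank ℂ (Kr N m (t + 1)) : ℂ) * ev (t + 1) M +
      tU M hM (m + 1) t := by
  rw [← tKr hM m (t + 1)]
  have hmap : ∀ x ∈ U N m (t + 1), El N x ∈ U N (m + 1) t := by
    rintro _ ⟨x, hx, rfl⟩
    refine ⟨x, ?_, ?_⟩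
    · have e : t + 1 + m = t + (m + 1) := by omega
      rw [← e]
      exact hx
    · rw [pow_succ', Module.End.mul_apply]
  refine trace_exact (Submodule.inclusion (inf_le_left : Kr N m (t + 1) ≤ U N m (t + 1)))
    ((El N).restrict hmap) (Submodule.inclusion_injective _) ?_ ?_ _ _ _ ?_ ?_
  · rintro ⟨_, x, hx, rfl⟩
    refine ⟨⟨(El N ^ m) x, x, ?_, rfl⟩, ?_⟩
    · have e : t + (m + 1) = t + 1 + m := by omega
      rw [← e]
      exact hx
    · apply Subtype.ext
      rw [LinearMap.restrict_apply]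
      change El N ((El N ^ m) x) = (El N ^ (m + 1)) x
      rw [pow_succ', Module.End.mul_apply]
  · intro y
    constructor
    · intro h
      have h1 : El N (y : Fin N × Fin N → ℂ) = 0 := congrArg Subtype.val h
      exact ⟨⟨y, y.2, h1⟩, rfl⟩
    · rintro ⟨x, rfl⟩
      apply Subtype.ext
      exact x.2.2
  · intro a
    rfl
  · intro b
    apply Subtype.ext
    change EE N *ᵥ (M *ᵥ (b : Fin N × Fin N → ℂ)) = M *ᵥ (EE N *ᵥ (b : Fin N × Fin N → ℂ))
    rw [Matrix.mulVec_mulVec, Matrix.mulVec_mulVec, hM.comm]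

lemma tU_zero {M : M2 N} (hM : Good M) (m : ℕ) :
    tU M hM m 0 = (Module.finrank ℂ (Kr N m 0) : ℂ) * ev 0 M := by
  have h : Kr N m 0 = U N m 0 := by
    refine inf_eq_left.2 fun x hx => ?_
    exact E_zero (U_le m 0 hx)
  rw [← tKr hM m 0]
  unfold tU
  have h2 : ∀ (A B : Submodule ℂ (Fin N × Fin N → ℂ)) (e : A = B) (hA : ∀ x ∈ A, (Matrix.mulVecLin M) x ∈ A)
      (hB : ∀ x ∈ B, (Matrix.mulVecLin M) x ∈ B),
      LinearMap.trace ℂ B ((Matrix.mulVecLin M).restrict hB) =
        LinearMap.trace ℂ A ((Matrix.mulVecLin M).restrict hA) := by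
    rintro A _ rfl hA hB
    rfl
  exact h2 _ _ h _ _

/-- the trace on the vectors of weight `t` -/
theorem tU_eq {M : M2 N} (hM : Good M) (t m : ℕ) :
    tU M hM m t = ∑ s ∈ range (t + 1), (Module.finrank ℂ (Kr N (m + (t - s)) s) : ℂ) * ev s M := by
  induction t generalizing m with
  | zero => rw [tU_zero, sum_range_one]; simp
  | succ t ih =>
    rw [tU_succ, ih, sum_range_succ _ (t + 1), Nat.sub_self, Nat.add_zero, add_comm]
    congr 1
    refine sum_congr rfl fun s hs => ?_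
    rw [mem_range] at hs
    rw [show m + 1 + (t - s) = m + (t + 1 - s) by omega]

end Pool.Agent.Q66.BS
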