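import Pool.Agent.Q66.BS.Fin

/-!
# Linked characters, and the character of a crossing
-/

set_option autoImplicit false

namespace Pool.Agent.Q66.BS

open Finset Matrix Pool.Agent.W715.VC Pool.Agent.H550R3.Jones Pool.Agent.Q66.TG
open Pool.Agent.W709.QAT (Piece run cup cap kap Diag)

variable {N : ℕ}

/-! ### the Casimir operator -/

lemma CC_FF (hN : 0 < N) : CC N * FF N = FF N * CC N := by
  have h := congrArg sh (CC_EE (N := N))
  rw [sh_mul, sh_mul, sh_CC hN, sh_EE hN, Matrix.neg_mul, Matrix.mul_neg, neg_inj] at h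
  exact h.symm

lemma CC_EF : CC N = EE N * FF N + ((rt N)⁻¹ • KK N + rt N • KKi N) := by
  have h := EE_FF (N := N)
  have h1 : FF N * EE N = EE N * FF N - (rt N - (rt N)⁻¹) • (KK N - KKi N) := by
    rw [← h]
    abel
  rw [CC, h1]
  module

lemma KK_vec {t : ℕ} {x : Fin N × Fin N → ℂ} (hx : x ∈ Ws N t) :
    KK N *ᵥ x = rt N ^ (2 * ((N : ℤ) - 1) - 2 * (t : ℤ)) • x := by
  funext p
  rw [KK_eq, mulVec_diagonal, Pi.smul_apply, smul_eq_mul]
  by_cases h : x p = 0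
  · rw [h, mul_zero, mul_zero]
  · rw [hx p h]

lemma KKi_vec {t : ℕ} {x : Fin N × Fin N → ℂ} (hx : x ∈ Ws N t) :
    KKi N *ᵥ x = rt N ^ (-(2 * ((N : ℤ) - 1) - 2 * (t : ℤ))) • x := by
  funext p
  rw [KKi_eq, mulVec_diagonal, Pi.smul_apply, smul_eq_mul]
  by_cases h : x p = 0
  · rw [h, mul_zero, mul_zero]
  · rw [hx p h]

/-- the value of the Casimir operator on the block of weight `t` -/
noncomputable def cas (N : ℕ) (t : ℕ) : ℂ :=
  rt N * rt N ^ (2 * ((N : ℤ) - 1) - 2 * (t : ℤ)) +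
    (rt N)⁻¹ * rt N ^ (-(2 * ((N : ℤ) - 1) - 2 * (t : ℤ)))

lemma CC_hw {t : ℕ} {x : Fin N × Fin N → ℂ} (hx : x ∈ Ws N t) (hE : EE N *ᵥ x = 0) :
    CC N *ᵥ x = cas N t • x := by
  rw [CC, Matrix.add_mulVec, Matrix.add_mulVec, ← Matrix.mulVec_mulVec, hE, Matrix.mulVec_zero,
    zero_add, Matrix.smul_mulVec, Matrix.smul_mulVec, KK_vec hx, KKi_vec hx, smul_smul, smul_smul,
    ← add_smul]
  rfl

lemma EF_vec {t : ℕ} {x : Fin N × Fin N → ℂ} (hx : x ∈ Ws N t) :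
    EE N *ᵥ (FF N *ᵥ x) = CC N *ᵥ x - ((rt N)⁻¹ * rt N ^ (2 * ((N : ℤ) - 1) - 2 * (t : ℤ)) +
      rt N * rt N ^ (-(2 * ((N : ℤ) - 1) - 2 * (t : ℤ)))) • x := by
  rw [CC_EF, Matrix.add_mulVec, Matrix.add_mulVec, ← Matrix.mulVec_mulVec, Matrix.smul_mulVec,
    Matrix.smul_mulVec, KK_vec hx, KKi_vec hx, smul_smul, smul_smul, ← add_smul, add_sub_cancel_right]

/-! ### the operator `F` -/

lemma Fo_ne {a b : Fin N} (h : Fo N a b ≠ 0) : (a : ℕ) = b + 1 := by
  unfold Fo irr at h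
  dsimp only at h
  by_contra h1
  rw [if_neg h1] at h
  exact h rfl

lemma Ki_apply (a b : Fin N) : Ki N a b = if a = b then (k1 a)⁻¹ else 0 := by
  unfold Ki WM.K k1
  rw [Matrix.diagonal_apply]
  split_ifs with h
  · rw [← _root_.zpow_neg]
    congr 1
    simp only [irr]
    ring
  · rfl

lemma FF_apply (a b : Fin N) (q : Fin N × Fin N) :
    FF N (a, b) q = Fo N a q.1 * (if b = q.2 then 1 else 0) +
      (if a = q.1 then (k1 a)⁻¹ else 0) * Fo N b q.2 := by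
  obtain ⟨c, d⟩ := q
  rw [FF, Matrix.add_apply, Matrix.kroneckerMap_apply, Matrix.kroneckerMap_apply, Ki_apply,
    Matrix.one_apply]

lemma F_mem {t : ℕ} {x : Fin N × Fin N → ℂ} (hx : x ∈ Ws N t) : FF N *ᵥ x ∈ Ws N (t + 1) := by
  intro p h
  obtain ⟨a, b⟩ := p
  obtain ⟨q, _, hq⟩ := exists_ne_zero_of_sum_ne_zero h
  have h1 := hx q (right_ne_zero_of_mul hq)
  have h2 : FF N (a, b) q ≠ 0 := left_ne_zero_of_mul hq
  rw [FF_apply] at h2
  dsimp only
  by_cases h3 : Fo N a q.1 * (if b = q.2 then 1 else 0) = 0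
  · rw [h3, zero_add] at h2
    have h4 := Fo_ne (right_ne_zero_of_mul h2)
    have h5 := left_ne_zero_of_mul h2
    have h6 : a = q.1 := by
      by_contra h7
      rw [if_neg h7] at h5
      exact h5 rfl
    rw [h6]
    omega
  · have h4 := Fo_ne (left_ne_zero_of_mul h3)
    have h5 := right_ne_zero_of_mul h3
    have h6 : b = q.2 := by
      by_contra h7
      rw [if_neg h7] at h5
      exact h5 rfl
    rw [h6]
    omega

lemma F_first {x : Fin N × Fin N → ℂ} {a b c : Fin N} (ha : (a : ℕ) = 0) (hb : (b : ℕ) = c + 1) :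
    (FF N *ᵥ x) (a, b) = (k1 a)⁻¹ * Fo N b c * x (a, c) := by
  have h : (FF N *ᵥ x) (a, b) = ∑ q, FF N (a, b) q * x q := rfl
  rw [h, sum_eq_single (a, c)]
  · rw [FF_apply, if_pos rfl]
    have h1 : Fo N a a = 0 := by
      by_contra h2
      have := Fo_ne h2
      omega
    rw [h1, zero_mul, zero_add]
  · intro q _ hq
    by_cases h2 : FF N (a, b) q = 0
    · rw [h2, zero_mul]
    · exfalso
      rw [FF_apply] at h2
      have h3 : Fo N a q.1 = 0 := by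
        by_contra h4
        have := Fo_ne h4
        omega
      rw [h3, zero_mul, zero_add] at h2
      have h4 := Fo_ne (right_ne_zero_of_mul h2)
      have h5 := left_ne_zero_of_mul h2
      have h6 : a = q.1 := by
        by_contra h7
        rw [if_neg h7] at h5
        exact h5 rfl
      exact hq (Prod.ext h6.symm (Fin.ext (by change (q.2 : ℕ) = c; omega)))
  · intro h2
    exact absurd (mem_univ _) h2

lemma Fo_succ_ne {a b : Fin N} (h : (a : ℕ) = b + 1) : Fo N a b ≠ 0 := by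
  unfold Fo irr
  dsimp only
  rw [if_pos h]
  have h1 := a.isLt
  exact (adm' N).2 (a : ℕ) (by omega) (by omega)

/-- the vectors `F^k x` -/
noncomputable def Fk (N k : ℕ) (x : Fin N × Fin N → ℂ) : Fin N × Fin N → ℂ := (FF N ^ k) *ᵥ x

lemma Fk_zero (x : Fin N × Fin N → ℂ) : Fk N 0 x = x := by
  unfold Fk
  rw [pow_zero, Matrix.one_mulVec]

lemma Fk_succ (k : ℕ) (x : Fin N × Fin N → ℂ) : Fk N (k + 1) x = FF N *ᵥ Fk N k x := by
  unfold Fk
  rw [pow_succ', ← Matrix.mulVec_mulVec]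

lemma Fk_mem {t : ℕ} {x : Fin N × Fin N → ℂ} (hx : x ∈ Ws N t) (k : ℕ) : Fk N k x ∈ Ws N (t + k) := by
  induction k with
  | zero => rw [Fk_zero]; exact hx
  | succ k ih =>
    rw [Fk_succ]
    exact F_mem ih

lemma Fk_comm {M : M2 N} (h : M * FF N = FF N * M) (k : ℕ) (x : Fin N × Fin N → ℂ) :
    M *ᵥ Fk N k x = Fk N k (M *ᵥ x) := by
  induction k with
  | zero => rw [Fk_zero, Fk_zero]
  | succ k ih =>
    rw [Fk_succ, Fk_succ, Matrix.mulVec_mulVec, h, ← Matrix.mulVec_mulVec, ih]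

lemma Fk_smul (c : ℂ) (k : ℕ) (x : Fin N × Fin N → ℂ) : Fk N k (c • x) = c • Fk N k x := by
  unfold Fk
  rw [Matrix.mulVec_smul]

lemma Fk_first {x : Fin N × Fin N → ℂ} {a : Fin N} (ha : (a : ℕ) = 0) (k : ℕ) :
    ∀ b c : Fin N, (b : ℕ) = c + k → x (a, c) ≠ 0 → Fk N k x (a, b) ≠ 0 := by
  induction k with
  | zero =>
    intro b c hb hx
    rw [Fk_zero]
    have : b = c := Fin.ext hb
    rw [this]
    exact hx
  | succ k ih =>
    intro b c hb hx
    have hc' : (c : ℕ) + k < N := by have := b.isLt; omega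
    have hb' : (b : ℕ) = ((⟨(c : ℕ) + k, hc'⟩ : Fin N) : ℕ) + 1 := by
      change (b : ℕ) = (c : ℕ) + k + 1
      omega
    rw [Fk_succ, F_first ha hb']
    exact mul_ne_zero (mul_ne_zero (inv_ne_zero (k1_ne a)) (Fo_succ_ne hb')) (ih _ c rfl hx)

/-! ### the first coordinate -/

lemma hw_first {s : ℕ} (h : Has N s) (h0 : 0 < N) : hw N s (⟨0, h0⟩, ⟨s, h.lt⟩) ≠ 0 := by
  intro h1
  apply hw_ne h
  refine ker_zero (hw_E s) fun a b ha => ?_
  by_contra hne
  have h2 := hw_mem s (a, b) hne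
  dsimp only at h2
  apply hne
  have ha' : a = ⟨0, h0⟩ := Fin.ext ha
  have hb' : b = ⟨s, h.lt⟩ := Fin.ext (by change (b : ℕ) = s; omega)
  rw [ha', hb']
  exact h1

lemma sh_sh (A : M2 N) : sh (sh A) = A := by
  ext p q
  simp only [sh, Complex.conj_conj]

lemma comm_FF (hN : 0 < N) {M : M2 N} (hs : Good (sh M)) : M * FF N = FF N * M := by
  have h := congrArg sh hs.comm
  rw [sh_mul, sh_mul, sh_sh, sh_EE hN, Matrix.neg_mul, Matrix.mul_neg, neg_inj] at h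
  exact h.symm

lemma rt_two (hN : 0 < N) : rt N ^ (2 * (N : ℤ)) = 1 := by
  rw [two_mul, zpow_add₀ (rt_ne N), rt_zpow_N hN]
  norm_num

/-- **linked characters agree** -/
theorem ev_link (hN : 0 < N) {M : M2 N} (hM : Good M) (hs : Good (sh M)) {s : ℕ} (h : Has N s)
    (h1 : 2 * s + 1 < N) : Has N (N - 1 - s) ∧ ev (N - 1 - s) M = ev s M := by
  obtain ⟨k, hk⟩ : ∃ k, N = 2 * s + 2 + k := ⟨N - (2 * s + 2), by omega⟩
  have hmem := Fk_mem (hw_mem (N := N) s) (k + 1)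
  have hlev : s + (k + 1) = N - 1 - s := by omega
  rw [hlev] at hmem
  have hne : Fk N (k + 1) (hw N s) ≠ 0 := by
    intro h2
    have h3 := Fk_first (N := N) (x := hw N s) (a := ⟨0, hN⟩) rfl (k + 1) ⟨s + (k + 1), by omega⟩
      ⟨s, h.lt⟩ rfl (hw_first h hN)
    rw [h2] at h3
    exact h3 rfl
  have hE : EE N *ᵥ Fk N (k + 1) (hw N s) = 0 := by
    rw [Fk_succ, EF_vec (Fk_mem (hw_mem s) k), Fk_comm (CC_FF hN), CC_hw (hw_mem s) (hw_E s), Fk_smul,
      ← sub_smul]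
    have h4 : cas N s - ((rt N)⁻¹ * rt N ^ (2 * ((N : ℤ) - 1) - 2 * ((s + k : ℕ) : ℤ)) +
        rt N * rt N ^ (-(2 * ((N : ℤ) - 1) - 2 * ((s + k : ℕ) : ℤ)))) = 0 := by
      unfold cas
      have e0 : (rt N)⁻¹ = rt N ^ (-1 : ℤ) := by rw [_root_.zpow_neg_one]
      have e1 : rt N = rt N ^ (1 : ℤ) := (zpow_one _).symm
      have a1 : rt N * rt N ^ (2 * ((N : ℤ) - 1) - 2 * (s : ℤ)) = rt N ^ (-(2 * (s : ℤ) + 1)) := by
        have : 1 + (2 * ((N : ℤ) - 1) - 2 * (s : ℤ)) = 2 * (N : ℤ) + (-(2 * (s : ℤ) + 1)) := by ring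
        rw [← zpow_one_add₀ (rt_ne N), this, zpow_add₀ (rt_ne N), rt_two hN, one_mul]
      have a2 : (rt N)⁻¹ * rt N ^ (-(2 * ((N : ℤ) - 1) - 2 * (s : ℤ))) = rt N ^ (2 * (s : ℤ) + 1) := by
        have : (-1 : ℤ) + (-(2 * ((N : ℤ) - 1) - 2 * (s : ℤ))) = -(2 * (N : ℤ)) + (2 * (s : ℤ) + 1) := by
          ring
        rw [e0, ← zpow_add₀ (rt_ne N), this, zpow_add₀ (rt_ne N), _root_.zpow_neg, rt_two hN, inv_one,
          one_mul]
      have hNk : (N : ℤ) = 2 * s + 2 + k := by exact_mod_cast hk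
      have a3 : (rt N)⁻¹ * rt N ^ (2 * ((N : ℤ) - 1) - 2 * ((s + k : ℕ) : ℤ)) =
          rt N ^ (2 * (s : ℤ) + 1) := by
        rw [e0, ← zpow_add₀ (rt_ne N)]
        congr 1
        push_cast
        rw [hNk]
        ring
      have a4 : rt N * rt N ^ (-(2 * ((N : ℤ) - 1) - 2 * ((s + k : ℕ) : ℤ))) =
          rt N ^ (-(2 * (s : ℤ) + 1)) := by
        rw [← zpow_one_add₀ (rt_ne N)]
        congr 1
        push_cast
        rw [hNk]
        ring
      rw [a1, a2, a3, a4]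
      ring
    rw [h4, zero_smul]
  have hHas : Has N (N - 1 - s) := ⟨_, hmem, hE, hne⟩
  refine ⟨hHas, ?_⟩
  obtain ⟨c, hc⟩ := exists_smul hmem hE
  have hc0 : c ≠ 0 := by
    rintro rfl
    rw [zero_smul] at hc
    exact hne hc
  have h5 : M *ᵥ Fk N (k + 1) (hw N s) = ev s M • Fk N (k + 1) (hw N s) := by
    rw [Fk_comm (comm_FF hN hs), ev_spec hM, Fk_smul]
  refine ev_eq hHas hM ?_
  rw [hc, Matrix.mulVec_smul, smul_comm] at h5
  exact smul_right_injective _ hc0 h5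

end Pool.Agent.Q66.BS
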