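import Pool.Agent.Q66.BS.Twi
import Pool.Agent.W715.VC.Nil

/-!
# All multiplicities are `N`
-/

set_option autoImplicit false

namespace Pool.Agent.Q66.BS

open Finset Matrix Pool.Agent.W715.VC Pool.Agent.H550R3.Jones Pool.Agent.Q66.TG
open Pool.Agent.W709.QAT (Piece run cup cap kap Diag)

variable {N : ℕ}

lemma El_pow (m : ℕ) (x : Fin N × Fin N → ℂ) : (El N ^ m) x = (EE N ^ m) *ᵥ x := by
  induction m generalizing x with
  | zero => rw [pow_zero, pow_zero, Matrix.one_mulVec]; rfl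
  | succ m ih =>
    rw [pow_succ, Module.End.mul_apply, ih, El_apply, Matrix.mulVec_mulVec, ← pow_succ]

lemma U_bot (hN : 0 < N) {m t : ℕ} (hm : N ≤ m) : U N m t = ⊥ := by
  rw [eq_bot_iff]
  rintro _ ⟨x, _, rfl⟩
  rw [Submodule.mem_bot, El_pow]
  obtain ⟨j, rfl⟩ : ∃ j, m = N + j := ⟨m - N, by omega⟩
  rw [pow_add, EE_pow_N hN, zero_mul, Matrix.zero_mulVec]

lemma mu_zero (hN : 0 < N) {t s : ℕ} (h : s + N ≤ t) : mu N t s = 0 := by
  unfold mu
  have h1 : Kr N (0 + (t - s)) s = ⊥ := by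
    unfold Kr
    rw [U_bot hN (by omega), bot_inf_eq]
  rw [h1, finrank_bot]

lemma mu_le (t s : ℕ) : mu N t s ≤ 1 := by
  unfold mu
  have h1 : Kr N (0 + (t - s)) s ≤ Submodule.span ℂ {hw N s} := by
    rintro x ⟨h2, h3⟩
    obtain ⟨c, hc⟩ := exists_smul (U_le _ s h2) h3
    rw [hc]
    exact Submodule.smul_mem _ _ (Submodule.mem_span_singleton_self _)
  refine (Submodule.finrank_mono h1).trans ?_
  have h4 := finrank_span_le_card (R := ℂ) ({hw N s} : Set (Fin N × Fin N → ℂ))
  simpa using h4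

lemma mult_le (hN : 0 < N) (s : ℕ) : mult N s ≤ N := by
  unfold mult
  have h1 : ∀ t ∈ range (2 * N), (if s ≤ t then mu N t s else 0) ≤
      if t ∈ Ico s (s + N) then 1 else 0 := by
    intro t _
    by_cases h2 : s ≤ t
    · rw [if_pos h2]
      by_cases h3 : t < s + N
      · rw [if_pos (mem_Ico.2 ⟨h2, h3⟩)]
        exact mu_le t s
      · rw [mu_zero hN (by omega)]
        exact Nat.zero_le _
    · rw [if_neg h2]
      exact Nat.zero_le _
  refine (sum_le_sum h1).trans ?_
  rw [← sum_filter, sum_const, smul_eq_mul, mul_one]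
  refine (card_le_card (t := Ico s (s + N)) fun t ht => (mem_filter.1 ht).2).trans ?_
  rw [Nat.card_Ico]
  omega

lemma SS_range : SS N ⊆ range N := fun s hs => mem_range.2 (mem_SS hs).lt

/-- **all multiplicities are `N`** -/
theorem mult_eq (hN : 0 < N) : SS N = range N ∧ ∀ s ∈ range N, mult N s = N := by
  have h1 : ∑ s ∈ SS N, mult N s = N ^ 2 := mult_sum
  have h2 : ∑ s ∈ SS N, mult N s ≤ ∑ s ∈ SS N, N := sum_le_sum fun s _ => mult_le hN s
  have h3 : (SS N).card ≤ N := by
    have := card_le_card (SS_range (N := N))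
    rwa [card_range] at this
  have h4 : (SS N).card = N := by
    rw [sum_const, smul_eq_mul, h1] at h2
    have h5 : N * N ≤ (SS N).card * N := by rw [← pow_two]; exact h2
    have := Nat.le_of_mul_le_mul_right h5 hN
    omega
  have h5 : SS N = range N := eq_of_subset_of_card_le SS_range (by rw [card_range, h4])
  refine ⟨h5, fun s hs => ?_⟩
  have h6 : ∑ s ∈ SS N, mult N s = ∑ s ∈ SS N, N := by
    rw [h1, sum_const, h4, smul_eq_mul, pow_two]
  exact (sum_eq_sum_iff_of_le fun s _ => mult_le hN s).1 h6 s (h5 ▸ hs)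

lemma has (hN : 0 < N) {s : ℕ} (hs : s < N) : Has N s :=
  mem_SS ((mult_eq hN).1 ▸ mem_range.2 hs)

/-- **the trace as a sum of characters** -/
theorem trace_sum (hN : 0 < N) {M : M2 N} (hM : Good M) :
    Matrix.trace M = N * ∑ s ∈ range N, ev s M := by
  rw [trace_eq' hM, (mult_eq hN).1, mul_sum]
  exact sum_congr rfl fun s hs => by rw [(mult_eq hN).2 s hs]

theorem Pd_sum (hN : 0 < N) (M : M2 N) : Pd M = N * ∑ s ∈ range N, ‖ev s M‖ ^ 2 := by
  unfold Pd
  rw [(mult_eq hN).1, mul_sum]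
  exact sum_congr rfl fun s hs => by rw [(mult_eq hN).2 s hs]

/-- linked characters -/
theorem ev_refl (hN : 0 < N) {M : M2 N} (hM : Good M) (hs : Good (sh M)) {s : ℕ} (h : s < N) :
    ev (N - 1 - s) M = ev s M := by
  rcases lt_trichotomy (2 * s + 1) N with h1 | h1 | h1
  · exact (ev_link hN hM hs (has hN h) h1).2
  · congr 1
    omega
  · have h2 := (ev_link hN hM hs (has hN (s := N - 1 - s) (by omega)) (by omega)).2
    rw [← h2]
    congr 1
    omega

end Pool.Agent.Q66.BS
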