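import Pool.Agent.Q66.BS.Tr

/-!
# The operator of a diagram with two strands below and above
-/

set_option autoImplicit false

namespace Pool.Agent.Q66.BS

open Finset Matrix Pool.Agent.W715.VC Pool.Agent.H550R3.Jones Pool.Agent.Q66.TG
open Pool.Agent.W709.QAT (Piece run cup cap kap Diag)
open Pool.Agent.W591.QAT (act_twist act_cup act_cap)

variable {N : ℕ}

/-- diagrams with two strands below and two strands above -/
def T22 (A : Diag) : Prop := FitD A 2 ∧ outD A 2 = 2

lemma T22_nil : T22 [] := ⟨trivial, rfl⟩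

lemma T22_append {A B : Diag} (hA : T22 A) (hB : T22 B) : T22 (A ++ B) := by
  refine ⟨(FitD_append _ _ _).2 ⟨hA.1, ?_⟩, ?_⟩
  · rw [hA.2]
    exact hB.1
  · rw [outD_append, hA.2, hB.2]

lemma T22_dl {A : Diag} (hA : T22 A) : T22 (dlD A 2) := by
  have h1 := FitD_dlD A 2 hA.1
  have h2 := outD_dlD A 2 hA.1
  rw [hA.2] at h1 h2
  exact ⟨h1, h2⟩

lemma dl_dl2 {A : Diag} (hA : T22 A) : dlD (dlD A 2) 2 = A := by
  have h := dlD_dlD A 2 hA.1
  rwa [hA.2] at h

lemma T22_pw {B : Diag} (hB : T22 B) (n : ℕ) : T22 (pw B n) := by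
  induction n with
  | zero => exact T22_nil
  | succ n ih =>
    rw [pw_succ]
    exact T22_append hB ih

/-- basis vectors -/
noncomputable def dv (q : Fin N × Fin N) : List (Fin N) → ℂ := fun s => if s = [q.1, q.2] then 1 else 0

/-- the operator of a diagram -/
noncomputable def opM (N : ℕ) (A : Diag) : M2 N := fun p q =>
  (starRingEnd ℂ) (run N (rt N) (dlD A 2) (dv (p.2, p.1)) [q.2, q.1])

lemma pr_two (g f : List (Fin N) → ℂ) :
    pr 2 g f = ∑ q : Fin N × Fin N, (starRingEnd ℂ) (g [q.2, q.1]) * f [q.1, q.2] := by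
  rw [Fintype.sum_prod_type]
  rfl

lemma pr_dv (p : Fin N × Fin N) (f : List (Fin N) → ℂ) : pr 2 (dv (p.2, p.1)) f = f [p.1, p.2] := by
  rw [pr_two, sum_eq_single p]
  · simp [dv]
  · intro q _ hq
    have : dv (p.2, p.1) [q.2, q.1] = 0 := by
      unfold dv
      rw [if_neg]
      intro h
      apply hq
      simp only [List.cons.injEq, and_true] at h
      exact Prod.ext h.2 h.1
    rw [this, map_zero, zero_mul]
  · intro h
    exact absurd (mem_univ _) h

/-- **the operator** -/
theorem run_two (hN : 0 < N) {A : Diag} (hA : T22 A) (f : List (Fin N) → ℂ) (a b : Fin N) :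
    run N (rt N) A f [a, b] = ∑ q : Fin N × Fin N, opM N A (a, b) q * f [q.1, q.2] := by
  have h := pr_run hN A 2 hA.1 (dv (b, a)) f
  rw [hA.2] at h
  have h1 := pr_dv (a, b) (run N (rt N) A f)
  dsimp only at h1
  rw [← h1, h, pr_two]
  rfl

lemma opM_apply (hN : 0 < N) {A : Diag} (hA : T22 A) (a b : Fin N) (q : Fin N × Fin N) :
    opM N A (a, b) q = run N (rt N) A (dv q) [a, b] := by
  rw [run_two hN hA, sum_eq_single q]
  · simp [dv]
  · intro r _ hr
    have : dv q [r.1, r.2] = 0 := by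
      unfold dv
      rw [if_neg]
      intro h
      apply hr
      simp only [List.cons.injEq, and_true] at h
      exact Prod.ext h.1 h.2
    rw [this, mul_zero]
  · intro h
    exact absurd (mem_univ _) h

theorem opM_dl (hN : 0 < N) {A : Diag} (hA : T22 A) : opM N (dlD A 2) = sh (opM N A) := by
  ext p q
  obtain ⟨a, b⟩ := p
  obtain ⟨c, d⟩ := q
  unfold sh
  rw [opM_apply hN hA]
  unfold opM
  rw [dl_dl2 hA]

theorem opM_append (hN : 0 < N) {A B : Diag} (hA : T22 A) (hB : T22 B) :
    opM N (A ++ B) = opM N B * opM N A := by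
  ext p q
  obtain ⟨a, b⟩ := p
  rw [opM_apply hN (T22_append hA hB), run_append, run_two hN hB, Matrix.mul_apply]
  refine sum_congr rfl fun r _ => ?_
  rw [← opM_apply hN hA]

lemma opM_nil (hN : 0 < N) : opM N [] = 1 := by
  ext p q
  obtain ⟨a, b⟩ := p
  obtain ⟨c, d⟩ := q
  rw [opM_apply hN T22_nil]
  change (if [a, b] = [c, d] then (1 : ℂ) else 0) = _
  rw [Matrix.one_apply]
  congr 1
  simp

lemma opM_pw (hN : 0 < N) {A : Diag} (hA : T22 A) (n : ℕ) : opM N (pw A n) = opM N A ^ n := by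
  induction n with
  | zero =>
    rw [pow_zero]
    exact opM_nil hN
  | succ n ih => rw [pw_succ, opM_append hN hA (T22_pw hA n), ih, pow_succ]

/-! ### the operator is good -/

/-- vectors of a given weight -/
def Wg (c : ℤ) (n : ℕ) (f : List (Fin N) → ℂ) : Prop :=
  ∀ s : List (Fin N), s.length = n → f s ≠ 0 →
    2 * (lev s : ℤ) = ((n : ℤ) - 1) * ((N : ℤ) - 1) + c

theorem Wg_act {c : ℤ} (P : Piece) (n : ℕ) (h : Fit P n) {f : List (Fin N) → ℂ} (hf : Wg c n f) :
    Wg c (out P n) (P.act N (rt N) f) := by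
  intro s hs hne
  cases P with
  | cup i =>
    obtain ⟨j, rfl⟩ : ∃ j, n = i + j := ⟨n - i, by simp only [Fit] at h; omega⟩
    obtain ⟨T, t, a, b, rfl, ht, rfl⟩ := split_two (s := s) (i := i) (j := j)
      (by rw [hs]; simp only [out]; omega)
    rw [act_cup _ _ T t a b rfl] at hne
    have h1 := hf (T ++ t) (by simp [ht]) (right_ne_zero_of_mul hne)
    have h2 : (a : ℕ) + b = N - 1 := by
      by_contra h3
      apply left_ne_zero_of_mul hne
      unfold cup
      rw [if_neg h3]
    have hN : 0 < N := by have := a.isLt; omega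
    rw [lev_append] at h1 ⊢
    rw [lev_cons, lev_cons]
    simp only [out]
    push_cast at h1 ⊢
    have h4 : ((a : ℕ) : ℤ) + ((b : ℕ) : ℤ) = (N : ℤ) - 1 := by omega
    linear_combination h1 + 2 * h4
  | cap i =>
    obtain ⟨j, rfl⟩ : ∃ j, n = i + (2 + j) := ⟨n - i - 2, by simp only [Fit] at h; omega⟩
    obtain ⟨T, t, rfl, ht, rfl⟩ := split_at (s := s) (i := i) (j := j)
      (by rw [hs]; simp only [out]; omega)
    rw [act_cap _ _ T t rfl] at hne
    obtain ⟨p, _, hp⟩ := exists_ne_zero_of_sum_ne_zero hne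
    have h1 := hf (T ++ p.1 :: p.2 :: t) (by simp [ht]; omega) (right_ne_zero_of_mul hp)
    have h2 : (p.1 : ℕ) + p.2 = N - 1 := by
      by_contra h3
      apply left_ne_zero_of_mul hp
      unfold cap
      rw [if_neg h3]
    have hN : 0 < N := by have := p.1.isLt; omega
    rw [lev_append, lev_cons, lev_cons] at h1
    rw [lev_append]
    have h5 : out (Piece.cap T.length) (T.length + (2 + j)) = T.length + j := by
      simp only [out]
      omega
    rw [h5]
    push_cast at h1 ⊢
    have h4 : ((p.1 : ℕ) : ℤ) + ((p.2 : ℕ) : ℤ) = (N : ℤ) - 1 := by omega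
    linear_combination h1 - 2 * h4
  | twist i σ m =>
    obtain ⟨j, rfl⟩ : ∃ j, n = i + (2 + j) := ⟨n - i - 2, by simp only [Fit] at h; omega⟩
    obtain ⟨T, t, a, b, rfl, ht, rfl⟩ := split_two (s := s) (i := i) (j := j) hs
    rw [act_twist _ _ _ _ T t a b rfl] at hne
    obtain ⟨p, _, hp⟩ := exists_ne_zero_of_sum_ne_zero hne
    have h1 := hf (T ++ p.1 :: p.2 :: t) (by simp [ht]; omega) (right_ne_zero_of_mul hp)
    have h2 : (a : ℕ) + b = p.1 + p.2 := cr_wt σ m (p := (a, b)) (left_ne_zero_of_mul hp)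
    rw [lev_append, lev_cons, lev_cons] at h1 ⊢
    simp only [out]
    have h4 : ((a : ℕ) : ℤ) + ((b : ℕ) : ℤ) = ((p.1 : ℕ) : ℤ) + ((p.2 : ℕ) : ℤ) := by
      exact_mod_cast h2
    push_cast at h1 ⊢
    linear_combination h1 + 2 * h4

theorem Wg_run {c : ℤ} : ∀ (D : Diag) (n : ℕ), FitD D n → ∀ {f : List (Fin N) → ℂ}, Wg c n f →
    Wg c (outD D n) (run N (rt N) D f)
  | [], n, _, f, hf => hf
  | P :: D, n, h, f, hf => by
    rw [run_cons]
    exact Wg_run D (out P n) h.2 (Wg_act P n h.1 hf)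

theorem good_opM (hN : 0 < N) {A : Diag} (hA : T22 A) : Good (opM N A) := by
  constructor
  · have key : ∀ x : Fin N × Fin N → ℂ, ∀ a b : Fin N,
        (opM N A *ᵥ (EE N *ᵥ x)) (a, b) = (EE N *ᵥ (opM N A *ᵥ x)) (a, b) := by
      intro x a b
      let f : List (Fin N) → ℂ := fun s => match s with
        | [c, d] => x (c, d)
        | _ => 0
      have hf : ∀ q : Fin N × Fin N, f [q.1, q.2] = x q := fun q => rfl
      have hE : ∀ (g : List (Fin N) → ℂ) (c d : Fin N),
          EL [c, d] g = ∑ q : Fin N × Fin N, EE N (c, d) q * g [q.1, q.2] := by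
        intro g c d
        rw [EL_two c d [] g]
        have e1 : kk ([] : List (Fin N)) = 1 := by simp [kk]
        have e2 : EL ([] : List (Fin N)) (fun r => g (c :: d :: r)) = 0 := rfl
        rw [e1, e2, mul_one, add_zero]
      have h1 := EL_run A 2 hA.1 f [a, b] (by rw [hA.2]; rfl)
      rw [hE, run_two hN hA] at h1
      have h2 : ∀ q : Fin N × Fin N, run N (rt N) A f [q.1, q.2] = (opM N A *ᵥ x) q := by
        intro q
        rw [run_two hN hA]
        rfl
      have h3 : ∀ q : Fin N × Fin N, EL [q.1, q.2] f = (EE N *ᵥ x) q := by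
        intro q
        rw [hE]
        rfl
      simp only [h2, h3] at h1
      exact h1.symm
    ext p q
    obtain ⟨a, b⟩ := p
    have h := key (Pi.single q 1) a b
    rw [Matrix.mulVec_mulVec, Matrix.mulVec_mulVec, Matrix.mulVec_single_one,
      Matrix.mulVec_single_one] at h
    exact h
  · rintro ⟨a, b⟩ q h
    rw [opM_apply hN hA] at h
    have h1 : Wg (2 * ((q.1 : ℕ) + (q.2 : ℕ) : ℤ) - ((N : ℤ) - 1)) 2 (dv q) := by
      intro s hs hne
      unfold dv at hne
      have h2 : s = [q.1, q.2] := by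
        by_contra h3
        rw [if_neg h3] at hne
        exact hne rfl
      rw [h2, lev_cons, lev_cons]
      simp only [lev, List.map_nil, List.sum_nil]
      push_cast
      ring
    have h2 := Wg_run A 2 hA.1 h1 [a, b] (by rw [hA.2]; rfl) h
    rw [hA.2, lev_cons, lev_cons] at h2
    simp only [lev, List.map_nil, List.sum_nil] at h2
    push_cast at h2
    dsimp only
    omega

end Pool.Agent.Q66.BS
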