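import Pool.Agent.Q66.BS.Wds

/-!
# The gluing formula, and the maximum over the full twists
-/

set_option autoImplicit false

namespace Pool.Agent.Q66.BS

open Finset Matrix Filter Topology Pool.Agent.W715.VC Pool.Agent.H550R3.Jones Pool.Agent.Q66.TG
open Pool.Agent.W709.QAT (Piece run cup cap kap Diag)

variable {N : ℕ}

/-- the number of elements of the class of `s` -/
noncomputable def cl (N s : ℕ) : ℂ := 2 - if 2 * s + 1 = N then 1 else 0

theorem glue_gen (hN : 0 < N) (hS : Sep N) {A B : Diag} (hA : T22 A) (hB : T22 B) :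
    ∑ k ∈ range N, jk hN A k * jk hN B (-(k : ℤ)) =
      om N ^ 2 * N ^ 3 * ∑ s ∈ range N, cl N s * (ee N A s * ee N B s) := by
  have h1 : ∀ k ∈ range N, jk hN A k * jk hN B (-(k : ℤ)) = om N ^ 2 * N ^ 2 *
      ((∑ s ∈ range N, zz N s ^ (k : ℤ) * ee N A s) *
        (∑ s ∈ range N, zz N s ^ (-(k : ℤ)) * ee N B s)) := by
    intro k _
    rw [jk_sum hN hA, jk_sum hN hB]
    ring
  rw [sum_congr rfl h1, ← mul_sum, twist_sum hN]
  have h2 : ∀ s ∈ range N, ee N A s * ∑ s' ∈ (range N).filter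
      (fun s' => s * (s + 1) ≡ s' * (s' + 1) [MOD N]), ee N B s' =
      cl N s * (ee N A s * ee N B s) := by
    intro s hs
    rw [class_sum hS (fun s hs => ee_refl hN hB hs) (mem_range.1 hs)]
    unfold cl
    ring
  rw [sum_congr rfl h2]
  ring

/-- **the gluing formula, even `N`** -/
theorem glue_even (hN : 0 < N) (hS : Sep N) (he : Even N) {A B : Diag} (hA : T22 A) (hB : T22 B) :
    2 * (N : ℂ) ^ 2 * om N * bv hN (A ++ B) = ∑ k ∈ range N, jk hN A k * jk hN B (-(k : ℤ)) := by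
  rw [glue_gen hN hS hA hB, bv_sum hN (T22_append hA hB)]
  have h1 : ∀ s ∈ range N, cl N s * (ee N A s * ee N B s) = 2 * ee N (A ++ B) s := by
    intro s _
    unfold cl
    rw [if_neg, ee_append hN hA hB]
    · ring
    · intro h
      obtain ⟨c, hc⟩ := he
      omega
  rw [sum_congr rfl h1, ← mul_sum]
  ring

/-- the sum over the middle class -/
lemma mid_sum (hN : 0 < N) (hS : Sep N) {s₀ : ℕ} (h0 : 2 * s₀ + 1 = N) (e : ℕ → ℂ) :
    ∑ k ∈ range N, zz N s₀ ^ (-(k : ℤ)) * (∑ s ∈ range N, zz N s ^ (k : ℤ) * e s) = N * e s₀ := by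
  have hs0 : s₀ < N := by omega
  have h1 := twist_sum hN e (fun s => if s = s₀ then 1 else 0)
  have h2 : ∀ k ∈ range N, (∑ s ∈ range N, zz N s ^ (k : ℤ) * e s) *
      (∑ s ∈ range N, zz N s ^ (-(k : ℤ)) * (if s = s₀ then 1 else 0)) =
      zz N s₀ ^ (-(k : ℤ)) * (∑ s ∈ range N, zz N s ^ (k : ℤ) * e s) := by
    intro k _
    have h3 : ∑ s ∈ range N, zz N s ^ (-(k : ℤ)) * (if s = s₀ then (1 : ℂ) else 0) =
        zz N s₀ ^ (-(k : ℤ)) := by
      rw [sum_eq_single s₀]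
      · rw [if_pos rfl, mul_one]
      · intro s _ hs
        rw [if_neg hs, mul_zero]
      · intro h
        exact absurd (mem_range.2 hs0) h
    rw [h3]
    ring
  rw [sum_congr rfl h2] at h1
  rw [h1]
  congr 1
  rw [sum_eq_single s₀]
  · rw [class_eq hS hs0]
    have e1 : N - 1 - s₀ = s₀ := by omega
    rw [e1, insert_eq_of_mem (mem_singleton_self _), sum_singleton, if_pos rfl, mul_one]
  · intro s hs hne
    rw [class_eq hS (mem_range.1 hs)]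
    have hs' := mem_range.1 hs
    rw [sum_eq_zero, mul_zero]
    intro s' hs''
    rw [if_neg]
    rintro rfl
    rw [mem_insert, mem_singleton] at hs''
    omega
  · intro h
    exact absurd (mem_range.2 hs0) h

lemma mid_A (hN : 0 < N) (hS : Sep N) {s₀ : ℕ} (h0 : 2 * s₀ + 1 = N) {A : Diag} (hA : T22 A) :
    ∑ k ∈ range N, zz N s₀ ^ (-(k : ℤ)) * jk hN A k = om N * N ^ 2 * ee N A s₀ := by
  have h1 : ∀ k ∈ range N, zz N s₀ ^ (-(k : ℤ)) * jk hN A k = om N * N *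
      (zz N s₀ ^ (-(k : ℤ)) * ∑ s ∈ range N, zz N s ^ (k : ℤ) * ee N A s) := by
    intro k _
    rw [jk_sum hN hA]
    ring
  rw [sum_congr rfl h1, ← mul_sum, mid_sum hN hS h0]
  ring

lemma mid_B (hN : 0 < N) (hS : Sep N) {s₀ : ℕ} (h0 : 2 * s₀ + 1 = N) {B : Diag} (hB : T22 B) :
    ∑ k ∈ range N, zz N s₀ ^ (k : ℤ) * jk hN B (-(k : ℤ)) = om N * N ^ 2 * ee N B s₀ := by
  have hs0 : s₀ < N := by omega
  have h1 : ∀ k ∈ range N, zz N s₀ ^ (k : ℤ) * jk hN B (-(k : ℤ)) = om N * N *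
      ((∑ s ∈ range N, zz N s ^ (k : ℤ) * (if s = s₀ then (1 : ℂ) else 0)) *
        ∑ s ∈ range N, zz N s ^ (-(k : ℤ)) * ee N B s) := by
    intro k _
    have h3 : ∑ s ∈ range N, zz N s ^ (k : ℤ) * (if s = s₀ then (1 : ℂ) else 0) =
        zz N s₀ ^ (k : ℤ) := by
      rw [sum_eq_single s₀]
      · rw [if_pos rfl, mul_one]
      · intro s _ hs
        rw [if_neg hs, mul_zero]
      · intro h
        exact absurd (mem_range.2 hs0) h
    rw [jk_sum hN hB, h3]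
    ring
  rw [sum_congr rfl h1, ← mul_sum, twist_sum hN, sum_eq_single s₀]
  · rw [if_pos rfl, class_eq hS hs0]
    have e1 : N - 1 - s₀ = s₀ := by omega
    rw [e1, insert_eq_of_mem (mem_singleton_self _), sum_singleton]
    ring
  · intro s _ hs
    rw [if_neg hs, zero_mul]
  · intro h
    exact absurd (mem_range.2 hs0) h

/-- **the gluing formula, odd `N`** -/
theorem glue_odd (hN : 0 < N) (hS : Sep N) {s₀ : ℕ} (h0 : 2 * s₀ + 1 = N) {A B : Diag}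
    (hA : T22 A) (hB : T22 B) :
    2 * (N : ℂ) ^ 2 * om N * bv hN (A ++ B) =
      ∑ k ∈ range N, jk hN A k * jk hN B (-(k : ℤ)) +
        1 / N * ((∑ k ∈ range N, zz N s₀ ^ (-(k : ℤ)) * jk hN A k) *
          ∑ k ∈ range N, zz N s₀ ^ (k : ℤ) * jk hN B (-(k : ℤ))) := by
  have hs0 : s₀ < N := by omega
  have hN' : (N : ℂ) ≠ 0 := by exact_mod_cast hN.ne'
  rw [glue_gen hN hS hA hB, mid_A hN hS h0 hA, mid_B hN hS h0 hB, bv_sum hN (T22_append hA hB)]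
  have h1 : ∑ s ∈ range N, cl N s * (ee N A s * ee N B s) =
      2 * (∑ s ∈ range N, ee N (A ++ B) s) - ee N A s₀ * ee N B s₀ := by
    have h2 : ∀ s ∈ range N, cl N s * (ee N A s * ee N B s) =
        2 * ee N (A ++ B) s - (if s = s₀ then ee N A s₀ * ee N B s₀ else 0) := by
      intro s _
      unfold cl
      rw [ee_append hN hA hB]
      by_cases h : s = s₀
      · rw [h, if_pos h0, if_pos rfl]
        ring
      · rw [if_neg h, if_neg (by omega)]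
        ring
    rw [sum_congr rfl h2, sum_sub_distrib, ← mul_sum, sum_ite_eq', if_pos (mem_range.2 hs0)]
  rw [h1]
  field_simp
  ring

/-! ### the mean square -/

/-- **Parseval** -/
theorem parseval (hN : 0 < N) (hS : Sep N) {A : Diag} (hA : T22 A) :
    ∑ k ∈ range N, ‖jk hN A k‖ ^ 2 =
      (N : ℝ) ^ 3 * ∑ s ∈ range N, (2 - if 2 * s + 1 = N then 1 else 0) * ‖ee N A s‖ ^ 2 := by
  have h1 := twist_sum hN (ee N A) (fun s => (starRingEnd ℂ) (ee N A s))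
  have h2 : ∀ k ∈ range N, (∑ s ∈ range N, zz N s ^ (k : ℤ) * ee N A s) *
      (∑ s ∈ range N, zz N s ^ (-(k : ℤ)) * (starRingEnd ℂ) (ee N A s)) =
      ((‖∑ s ∈ range N, zz N s ^ (k : ℤ) * ee N A s‖ ^ 2 : ℝ) : ℂ) := by
    intro k _
    have h3 : ∑ s ∈ range N, zz N s ^ (-(k : ℤ)) * (starRingEnd ℂ) (ee N A s) =
        (starRingEnd ℂ) (∑ s ∈ range N, zz N s ^ (k : ℤ) * ee N A s) := by
      rw [map_sum]
      refine sum_congr rfl fun s _ => ?_
      rw [map_mul, map_zpow₀, ← Complex.inv_eq_conj (norm_zz N s), _root_.inv_zpow,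
        _root_.zpow_neg]
    rw [h3, Complex.mul_conj']
    push_cast
    rfl
  have h4 : ∀ s ∈ range N, ee N A s * ∑ s' ∈ (range N).filter
      (fun s' => s * (s + 1) ≡ s' * (s' + 1) [MOD N]), (starRingEnd ℂ) (ee N A s') =
      (((2 - if 2 * s + 1 = N then 1 else 0) * ‖ee N A s‖ ^ 2 : ℝ) : ℂ) := by
    intro s hs
    rw [class_sum hS (fun s hs => by rw [ee_refl hN hA hs]) (mem_range.1 hs), mul_left_comm,
      Complex.mul_conj']
    split_ifs <;> push_cast <;> ring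
  rw [sum_congr rfl h2, sum_congr rfl h4, ← Complex.ofReal_sum, ← Complex.ofReal_sum,
    ← Complex.ofReal_natCast, ← Complex.ofReal_mul] at h1
  have h5 := Complex.ofReal_injective h1
  have h6 : ∀ k ∈ range N, ‖jk hN A k‖ ^ 2 =
      (N : ℝ) ^ 2 * ‖∑ s ∈ range N, zz N s ^ (k : ℤ) * ee N A s‖ ^ 2 := by
    intro k _
    rw [jk_sum hN hA, norm_mul, norm_om, one_mul, norm_mul, Complex.norm_natCast, mul_pow]
  rw [sum_congr rfl h6, ← mul_sum, h5]
  ring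

theorem parseval_even (hN : 0 < N) (hS : Sep N) (he : Even N) {A : Diag} (hA : T22 A) :
    ∑ k ∈ range N, ‖jk hN A k‖ ^ 2 = 2 * (N : ℝ) ^ 2 * ‖bv hN (dbl A)‖ := by
  rw [parseval hN hS hA, norm_bv_dbl hN hA, Pd_sum hN]
  have h1 : ∀ s ∈ range N, ((2 : ℝ) - if 2 * s + 1 = N then 1 else 0) * ‖ee N A s‖ ^ 2 =
      2 * ‖ev s (opM N A)‖ ^ 2 := by
    intro s _
    rw [if_neg]
    · rw [sub_zero]
      rfl
    · intro h
      obtain ⟨c, hc⟩ := he
      omega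
  rw [sum_congr rfl h1, ← mul_sum]
  ring

theorem parseval_bounds (hN : 0 < N) (hS : Sep N) {A : Diag} (hA : T22 A) :
    (N : ℝ) ^ 2 * ‖bv hN (dbl A)‖ ≤ ∑ k ∈ range N, ‖jk hN A k‖ ^ 2 ∧
      ∑ k ∈ range N, ‖jk hN A k‖ ^ 2 ≤ 2 * (N : ℝ) ^ 2 * ‖bv hN (dbl A)‖ := by
  rw [parseval hN hS hA, norm_bv_dbl hN hA, Pd_sum hN]
  have h1 : ∑ s ∈ range N, ‖ev s (opM N A)‖ ^ 2 ≤
      ∑ s ∈ range N, ((2 : ℝ) - if 2 * s + 1 = N then 1 else 0) * ‖ee N A s‖ ^ 2 := by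
    refine sum_le_sum fun s _ => ?_
    have h2 : (0 : ℝ) ≤ ‖ee N A s‖ ^ 2 := by positivity
    change ‖ee N A s‖ ^ 2 ≤ _
    split_ifs <;> nlinarith
  have h2 : ∑ s ∈ range N, ((2 : ℝ) - if 2 * s + 1 = N then 1 else 0) * ‖ee N A s‖ ^ 2 ≤
      ∑ s ∈ range N, 2 * ‖ev s (opM N A)‖ ^ 2 := by
    refine sum_le_sum fun s _ => ?_
    have h2 : (0 : ℝ) ≤ ‖ee N A s‖ ^ 2 := by positivity
    change _ ≤ 2 * ‖ee N A s‖ ^ 2
    split_ifs <;> nlinarith
  rw [← mul_sum] at h2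
  have h3 : (0 : ℝ) ≤ (N : ℝ) ^ 3 := by positivity
  constructor
  · calc _ = (N : ℝ) ^ 3 * ∑ s ∈ range N, ‖ev s (opM N A)‖ ^ 2 := by ring
      _ ≤ _ := mul_le_mul_of_nonneg_left h1 h3
  · calc _ ≤ (N : ℝ) ^ 3 * (2 * ∑ s ∈ range N, ‖ev s (opM N A)‖ ^ 2) :=
        mul_le_mul_of_nonneg_left h2 h3
      _ = _ := by ring

/-! ### the maximum over the twists -/

lemma norm_jk_le (hN : 0 < N) {A : Diag} (hA : T22 A) (k : ℤ) :
    ‖jk hN A k‖ ≤ (N : ℝ) ^ 2 * mx hN A := by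
  have h := bv_le hN (T22_append hA (T22_TD k))
  rwa [mx_TD hN hA] at h

lemma jk_emod (hN : 0 < N) {A : Diag} (hA : T22 A) (k : ℤ) :
    jk hN A k = jk hN A ((k % N).toNat : ℤ) := by
  have h1 := Int.emod_nonneg k (by omega : (N : ℤ) ≠ 0)
  have h2 := jk_period hN hA (k % N) (k / N)
  rw [mul_comm (k / N), Int.emod_add_mul_ediv] at h2
  rw [h2, Int.toNat_of_nonneg h1]

/-- some twist is large -/
theorem exists_twist (hN : 0 < N) (hS : Sep N) {A : Diag} (hA : T22 A) :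
    ∃ k ∈ range N, (∀ l : ℤ, ‖jk hN A l‖ ≤ ‖jk hN A k‖) ∧
      (N : ℝ) * ‖bv hN (dbl A)‖ ≤ ‖jk hN A k‖ ^ 2 ∧ (N : ℝ) * mx hN A ≤ ‖jk hN A k‖ := by
  obtain ⟨k, hk, hmax⟩ := exists_max_image (range N) (fun k : ℕ => ‖jk hN A k‖)
    (nonempty_range_iff.2 hN.ne')
  have h1 := (parseval_bounds hN hS hA).1
  have h2 : ∑ k ∈ range N, ‖jk hN A k‖ ^ 2 ≤ N * ‖jk hN A k‖ ^ 2 := by
    calc _ ≤ ∑ _l ∈ range N, ‖jk hN A k‖ ^ 2 :=
          sum_le_sum fun l hl => pow_le_pow_left₀ (norm_nonneg _) (hmax l hl) 2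
      _ = _ := by rw [sum_const, card_range, nsmul_eq_mul]
  have hN' : (0 : ℝ) < N := by exact_mod_cast hN
  have h3 : (N : ℝ) * ‖bv hN (dbl A)‖ ≤ ‖jk hN A k‖ ^ 2 := by
    have h4 : (N : ℝ) * (N * ‖bv hN (dbl A)‖) ≤ N * ‖jk hN A k‖ ^ 2 := by
      calc _ = (N : ℝ) ^ 2 * ‖bv hN (dbl A)‖ := by ring
        _ ≤ _ := h1.trans h2
    exact le_of_mul_le_mul_left h4 hN'
  refine ⟨k, hk, fun l => ?_, h3, ?_⟩
  · rw [jk_emod hN hA l]
    refine hmax _ (mem_range.2 ?_)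
    have h4 := Int.emod_nonneg l (by omega : (N : ℤ) ≠ 0)
    have h5 := Int.emod_lt_of_pos l (by omega : (0 : ℤ) < N)
    omega
  · have h4 := (bv_dbl hN hA).1
    have h5 : ((N : ℝ) * mx hN A) ^ 2 ≤ ‖jk hN A k‖ ^ 2 := by
      calc ((N : ℝ) * mx hN A) ^ 2 = N * (N * mx hN A ^ 2) := by ring
        _ ≤ N * ‖bv hN (dbl A)‖ := mul_le_mul_of_nonneg_left h4 hN'.le
        _ ≤ _ := h3
    exact (pow_le_pow_iff_left₀ (mul_nonneg hN'.le (mx_nonneg hN A)) (norm_nonneg _)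
      two_ne_zero).1 h5

end Pool.Agent.Q66.BS
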