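import Pool.Agent.Q66.BS.Gls

/-!
# Power sums of the characters, and the growth in the degree of the coverings
-/

set_option autoImplicit false

namespace Pool.Agent.Q66.BS

open Finset Matrix Filter Topology Pool.Agent.W715.VC Pool.Agent.H550R3.Jones Pool.Agent.Q66.TG
open Pool.Agent.W709.QAT (Piece run cup cap kap Diag)

/-! ### the Fejér kernel in the disc -/

/-- `1 + z + ... + z^m` -/
noncomputable def gs (z : ℂ) (m : ℕ) : ℂ := ∑ i ∈ range (m + 1), z ^ i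

lemma gs_succ (z : ℂ) (m : ℕ) : gs z (m + 1) = z * gs z m + 1 := by
  unfold gs
  rw [sum_range_succ' _ (m + 1), pow_zero, mul_sum]
  congr 1
  exact sum_congr rfl fun i _ => by rw [pow_succ']

lemma fejer_id (z : ℂ) (J : ℕ) :
    ∑ m ∈ range (J + 1), (1 + 2 * (gs z m - 1).re) =
      ‖gs z J‖ ^ 2 + (1 - ‖z‖ ^ 2) * ∑ i ∈ range J, ‖gs z i‖ ^ 2 := by
  induction J with
  | zero => simp [gs]
  | succ J ih =>
    rw [sum_range_succ, ih, sum_range_succ _ J, gs_succ]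
    have h1 : ‖z * gs z J + 1‖ ^ 2 = ‖z‖ ^ 2 * ‖gs z J‖ ^ 2 + 2 * (z * gs z J).re + 1 := by
      rw [← Complex.normSq_eq_norm_sq, ← Complex.normSq_eq_norm_sq, ← Complex.normSq_eq_norm_sq,
        ← Complex.normSq_mul]
      simp only [Complex.normSq_apply, Complex.add_re, Complex.add_im, Complex.one_re,
        Complex.one_im]
      ring
    rw [h1]
    simp only [Complex.add_re, Complex.sub_re, Complex.one_re]
    ring

lemma fejer_nonneg {z : ℂ} (hz : ‖z‖ ≤ 1) (J : ℕ) :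
    0 ≤ ∑ m ∈ range J, (1 + 2 * (gs z m - 1).re) := by
  cases J with
  | zero => simp
  | succ J =>
    rw [fejer_id]
    have h1 : (0 : ℝ) ≤ 1 - ‖z‖ ^ 2 := by nlinarith [norm_nonneg z]
    have h2 : (0 : ℝ) ≤ ∑ i ∈ range J, ‖gs z i‖ ^ 2 := sum_nonneg fun _ _ => by positivity
    positivity

lemma fejer_one (J : ℕ) : ∑ m ∈ range J, (1 + 2 * (gs 1 m - 1).re) = (J : ℝ) ^ 2 := by
  induction J with
  | zero => simp
  | succ J ih =>
    rw [sum_range_succ, ih]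
    simp [gs]
    ring

/-- **power sums** -/
theorem power_sum {N : ℕ} (w : ℕ → ℂ) (hw : ∀ s ∈ range N, ‖w s‖ ≤ 1) {s₀ : ℕ}
    (h0 : s₀ ∈ range N) (h1 : w s₀ = 1) :
    ∃ j : ℕ, 1 ≤ j ∧ j ≤ 2 * N - 1 ∧ 1 / 2 ≤ ‖∑ s ∈ range N, w s ^ j‖ := by
  by_contra hcon
  push Not at hcon
  have hN : 0 < N := by
    have := mem_range.1 h0
    omega
  have a1 : ((2 * N : ℕ) : ℝ) ^ 2 ≤
      ∑ s ∈ range N, ∑ m ∈ range (2 * N), (1 + 2 * (gs (w s) m - 1).re) := by
    have h2 := single_le_sum (f := fun s => ∑ m ∈ range (2 * N), (1 + 2 * (gs (w s) m - 1).re))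
      (fun s hs => fejer_nonneg (hw s hs) _) h0
    rwa [h1, fejer_one] at h2
  have a2 : ∀ m ∈ range (2 * N), ∑ s ∈ range N, (1 + 2 * (gs (w s) m - 1).re) ≤ N + m := by
    intro m hm
    rw [mem_range] at hm
    have b1 : ∑ s ∈ range N, (1 + 2 * (gs (w s) m - 1).re) =
        N + 2 * (∑ i ∈ range m, ∑ s ∈ range N, w s ^ (i + 1)).re := by
      rw [sum_add_distrib, ← mul_sum, sum_comm]
      simp only [sum_const, card_range, nsmul_eq_mul, mul_one]
      congr 2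
      rw [Complex.re_sum]
      refine sum_congr rfl fun s _ => ?_
      congr 1
      unfold gs
      rw [sum_range_succ', pow_zero, add_sub_cancel_right]
    have b2 : (∑ i ∈ range m, ∑ s ∈ range N, w s ^ (i + 1)).re ≤ m * (1 / 2 : ℝ) := by
      refine (Complex.re_le_norm _).trans ((_root_.norm_sum_le _ _).trans ?_)
      have : ∀ i ∈ range m, ‖∑ s ∈ range N, w s ^ (i + 1)‖ ≤ 1 / 2 := by
        intro i hi
        rw [mem_range] at hi
        exact (hcon (i + 1) (by omega) (by omega)).le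
      refine (sum_le_sum this).trans ?_
      rw [sum_const, card_range, nsmul_eq_mul]
    rw [b1]
    linarith
  rw [sum_comm] at a1
  have a3 := a1.trans (sum_le_sum a2)
  have a4 : ∑ m ∈ range (2 * N), ((N : ℝ) + m) = 2 * N * N + N * (2 * N - 1) := by
    rw [sum_add_distrib]
    simp only [sum_const, card_range, nsmul_eq_mul]
    have h2 : ∀ n : ℕ, ∑ m ∈ range (2 * n), (m : ℝ) = n * (2 * n - 1) := by
      intro n
      induction n with
      | zero => simp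
      | succ n ih =>
        rw [show 2 * (n + 1) = 2 * n + 1 + 1 by ring, sum_range_succ, sum_range_succ, ih]
        push_cast
        ring
    rw [h2]
    push_cast
    ring
  rw [a4] at a3
  push_cast at a3
  have hN' : (0 : ℝ) < N := by exact_mod_cast hN
  nlinarith

variable {N : ℕ}

/-! ### the maximum of the characters -/

/-- the maximum of the characters of a tangle -/
noncomputable def mx (hN : 0 < N) (A : Diag) : ℝ :=
  (range N).sup' (nonempty_range_iff.2 hN.ne') fun s => ‖ee N A s‖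

lemma le_mx (hN : 0 < N) (A : Diag) {s : ℕ} (hs : s ∈ range N) : ‖ee N A s‖ ≤ mx hN A :=
  le_sup' (fun s => ‖ee N A s‖) hs

lemma exists_mx (hN : 0 < N) (A : Diag) : ∃ s ∈ range N, ‖ee N A s‖ = mx hN A := by
  obtain ⟨s, hs, h⟩ := exists_mem_eq_sup' (nonempty_range_iff.2 hN.ne') fun s => ‖ee N A s‖
  exact ⟨s, hs, h.symm⟩

lemma mx_nonneg (hN : 0 < N) (A : Diag) : 0 ≤ mx hN A := by
  obtain ⟨s, _, h⟩ := exists_mx hN A
  rw [← h]
  exact norm_nonneg _

lemma mx_append (hN : 0 < N) {A B : Diag} (hA : T22 A) (hB : T22 B) :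
    mx hN (A ++ B) ≤ mx hN A * mx hN B := by
  obtain ⟨s, hs, h⟩ := exists_mx hN (A ++ B)
  rw [← h, ee_append hN hA hB, norm_mul]
  exact mul_le_mul (le_mx hN A hs) (le_mx hN B hs) (norm_nonneg _) (mx_nonneg hN A)

lemma ee_nil (hN : 0 < N) {s : ℕ} (hs : s ∈ range N) : ee N [] s = 1 := by
  unfold ee
  rw [opM_nil hN]
  exact ev_one (has hN (mem_range.1 hs))

lemma ee_pw (hN : 0 < N) {A : Diag} (hA : T22 A) (m : ℕ) {s : ℕ} (hs : s ∈ range N) :
    ee N (pw A m) s = ee N A s ^ m := by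
  unfold ee
  rw [opM_pw hN hA]
  exact ev_pow (has hN (mem_range.1 hs)) (good_opM hN hA) m

lemma mx_congr (hN : 0 < N) {A : Diag} {f : ℕ → ℝ} (h : ∀ s ∈ range N, ‖ee N A s‖ = f s) {c : ℝ}
    (h1 : ∀ s ∈ range N, f s ≤ c) (h2 : ∃ s ∈ range N, f s = c) : mx hN A = c := by
  apply le_antisymm
  · obtain ⟨s, hs, h3⟩ := exists_mx hN A
    rw [← h3, h s hs]
    exact h1 s hs
  · obtain ⟨s, hs, h3⟩ := h2
    rw [← h3, ← h s hs]
    exact le_mx hN A hs

lemma mx_pw (hN : 0 < N) {A : Diag} (hA : T22 A) (m : ℕ) : mx hN (pw A m) = mx hN A ^ m := by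
  refine mx_congr hN (f := fun s => ‖ee N A s‖ ^ m) (fun s hs => by rw [ee_pw hN hA m hs, norm_pow])
    (fun s hs => pow_le_pow_left₀ (norm_nonneg _) (le_mx hN A hs) m) ?_
  obtain ⟨s, hs, h⟩ := exists_mx hN A
  exact ⟨s, hs, by rw [h]⟩

lemma norm_ee_dl (hN : 0 < N) {A : Diag} (hA : T22 A) (s : ℕ) : ‖ee N (dlD A 2) s‖ = ‖ee N A s‖ := by
  unfold ee
  rw [opM_dl hN hA, ev_sh (good_opM hN hA) (good_sh hN hA), RCLike.norm_conj]

lemma mx_dl (hN : 0 < N) {A : Diag} (hA : T22 A) : mx hN (dlD A 2) = mx hN A :=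
  mx_congr hN (fun s _ => norm_ee_dl hN hA s) (fun _ hs => le_mx hN A hs) (exists_mx hN A)

lemma mx_dbl (hN : 0 < N) {A : Diag} (hA : T22 A) : mx hN (dbl A) = mx hN A ^ 2 := by
  refine mx_congr hN (f := fun s => ‖ee N A s‖ ^ 2) (fun s _ => ?_)
    (fun s hs => pow_le_pow_left₀ (norm_nonneg _) (le_mx hN A hs) 2) ?_
  · unfold dbl
    rw [ee_append hN hA (T22_dl hA), norm_mul, norm_ee_dl hN hA, pow_two]
  · obtain ⟨s, hs, h⟩ := exists_mx hN A
    exact ⟨s, hs, by rw [h]⟩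

lemma mx_TD (hN : 0 < N) {A : Diag} (hA : T22 A) (k : ℤ) : mx hN (A ++ TD k) = mx hN A := by
  refine mx_congr hN (f := fun s => ‖ee N A s‖) (fun s hs => ?_) (fun _ hs => le_mx hN A hs)
    (exists_mx hN A)
  rw [ee_append hN hA (T22_TD k), norm_mul]
  have h1 : ee N (TD k) s = zz N s ^ k := ev_TD hN (mem_range.1 hs) k
  rw [h1, norm_zpow, norm_zz, _root_.one_zpow, mul_one]

/-- upper bound -/
theorem bv_le (hN : 0 < N) {A : Diag} (hA : T22 A) : ‖bv hN A‖ ≤ (N : ℝ) ^ 2 * mx hN A := by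
  rw [bv_sum hN hA, norm_mul, norm_om, one_mul, norm_mul, Complex.norm_natCast, pow_two, mul_assoc]
  refine mul_le_mul_of_nonneg_left ((_root_.norm_sum_le _ _).trans ?_) (Nat.cast_nonneg _)
  refine (sum_le_sum fun s hs => le_mx hN A hs).trans ?_
  rw [sum_const, card_range, nsmul_eq_mul]

/-- the double -/
theorem bv_dbl (hN : 0 < N) {A : Diag} (hA : T22 A) :
    (N : ℝ) * mx hN A ^ 2 ≤ ‖bv hN (dbl A)‖ ∧ ‖bv hN (dbl A)‖ ≤ (N : ℝ) ^ 2 * mx hN A ^ 2 := by
  constructor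
  · rw [norm_bv_dbl hN hA, Pd_sum hN]
    refine mul_le_mul_of_nonneg_left ?_ (Nat.cast_nonneg _)
    obtain ⟨s, hs, h⟩ := exists_mx hN A
    rw [← h]
    exact single_le_sum (f := fun s => ‖ee N A s‖ ^ 2) (fun _ _ => by positivity) hs
  · have := bv_le hN (T22_dbl hA)
    rwa [mx_dbl hN hA] at this

/-- the powers of the double -/
theorem bv_dbl_pow (hN : 0 < N) {A : Diag} (hA : T22 A) (m : ℕ) :
    (N : ℝ) * (mx hN A ^ 2) ^ m ≤ ‖bv hN (pw (dbl A) m)‖ ∧
      ‖bv hN (pw (dbl A) m)‖ ≤ (N : ℝ) ^ 2 * (mx hN A ^ 2) ^ m := by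
  constructor
  · rw [norm_bv_pow hN hA, (mult_eq hN).1]
    have h1 : ∑ s ∈ range N, (mult N s : ℝ) * (‖ev s (opM N A)‖ ^ 2) ^ m =
        N * ∑ s ∈ range N, (‖ee N A s‖ ^ 2) ^ m := by
      rw [mul_sum]
      exact sum_congr rfl fun s hs => by rw [(mult_eq hN).2 s hs]; rfl
    rw [h1]
    refine mul_le_mul_of_nonneg_left ?_ (Nat.cast_nonneg _)
    obtain ⟨s, hs, h⟩ := exists_mx hN A
    rw [← h]
    exact single_le_sum (f := fun s => (‖ee N A s‖ ^ 2) ^ m) (fun _ _ => by positivity) hs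
  · have h := bv_le hN (T22_pw (T22_dbl hA) m)
    rwa [mx_pw hN (T22_dbl hA), mx_dbl hN hA] at h

/-- **some power is large** -/
theorem exists_large (hN : 0 < N) {A : Diag} (hA : T22 A) :
    ∃ j : ℕ, 1 ≤ j ∧ j ≤ 2 * N - 1 ∧ (N : ℝ) / 2 * mx hN A ^ j ≤ ‖bv hN (pw A j)‖ := by
  rcases (mx_nonneg hN A).eq_or_lt with h0 | h0
  · refine ⟨1, le_rfl, by omega, ?_⟩
    rw [← h0]
    simp
  obtain ⟨s₀, hs₀, h1⟩ := exists_mx hN A
  have hne : ee N A s₀ ≠ 0 := by
    rw [← norm_pos_iff, h1]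
    exact h0
  obtain ⟨j, hj1, hj2, hj⟩ := power_sum (N := N) (fun s => ee N A s / ee N A s₀)
    (fun s hs => by
      rw [norm_div, h1, div_le_one h0]
      exact le_mx hN A hs) hs₀ (div_self hne)
  refine ⟨j, hj1, hj2, ?_⟩
  have h2 : ∑ s ∈ range N, (ee N A s / ee N A s₀) ^ j =
      (∑ s ∈ range N, ee N A s ^ j) / ee N A s₀ ^ j := by
    rw [sum_div]
    exact sum_congr rfl fun s _ => div_pow _ _ _
  rw [h2, norm_div, norm_pow, h1, le_div_iff₀ (pow_pos h0 j)] at hj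
  have h3 : ‖bv hN (pw A j)‖ = N * ‖∑ s ∈ range N, ee N A s ^ j‖ := by
    rw [bv_sum hN (T22_pw hA j), norm_mul, norm_om, one_mul, norm_mul, Complex.norm_natCast]
    congr 2
    exact sum_congr rfl fun s hs => ee_pw hN hA j hs
  rw [h3]
  calc (N : ℝ) / 2 * mx hN A ^ j = N * (1 / 2 * mx hN A ^ j) := by ring
    _ ≤ _ := mul_le_mul_of_nonneg_left hj (Nat.cast_nonneg _)

end Pool.Agent.Q66.BS
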