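import Pool.Agent.Q66.BS.Lin

/-!
# The trace of an operator on two strands: adjoint, positivity, powers
-/

set_option autoImplicit false

namespace Pool.Agent.Q66.BS

open Finset Matrix Pool.Agent.W715.VC Pool.Agent.H550R3.Jones Pool.Agent.Q66.TG

variable {N : ℕ}

/-- the sum of the diagonal entries of weight `t` -/
noncomputable def Tt (t : ℕ) (M : M2 N) : ℂ := ∑ p, if (p.1 : ℕ) + p.2 = t then M p p else 0

lemma tU_Tt {M : M2 N} (hM : Good M) (t : ℕ) : tU M hM 0 t = Tt t M := by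
  let D : M2 N := diagonal fun p => if (p.1 : ℕ) + p.2 = t then 1 else 0
  have hD : ∀ x : Fin N × Fin N → ℂ, ∀ p, (D *ᵥ x) p = if (p.1 : ℕ) + p.2 = t then x p else 0 := by
    intro x p
    rw [mulVec_diagonal]
    split_ifs <;> simp
  have hDm : ∀ x : Fin N × Fin N → ℂ, D *ᵥ x ∈ Ws N t := by
    intro x p h
    rw [hD] at h
    by_contra h1
    rw [if_neg h1] at h
    exact h rfl
  have hDx : ∀ x ∈ Ws N t, D *ᵥ x = x := by
    intro x hx
    funext p
    rw [hD]
    split_ifs with h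
    · rfl
    · by_contra h1
      exact h (hx p (Ne.symm h1))
  have h1 := LinearMap.trace_restrict_eq_of_forall_mem (Ws N t) (Matrix.toLin' (M * D))
    (fun x => by
      rw [Matrix.toLin'_apply, ← Matrix.mulVec_mulVec]
      exact hM.mem (hDm x))
  rw [Matrix.trace_toLin'_eq] at h1
  have h2 : Matrix.trace (M * D) = Tt t M := by
    unfold Matrix.trace Tt
    refine sum_congr rfl fun p _ => ?_
    rw [Matrix.diag_apply, Matrix.mul_diagonal]
    split_ifs <;> simp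
  rw [h2] at h1
  rw [← h1]
  unfold tU
  have h3 : ∀ (A : Submodule ℂ (Fin N × Fin N → ℂ)) (e : A = Ws N t)
      (hA : ∀ x ∈ A, (Matrix.mulVecLin M) x ∈ A)
      (hB : ∀ x ∈ Ws N t, (Matrix.toLin' (M * D)) x ∈ Ws N t),
      LinearMap.trace ℂ A ((Matrix.mulVecLin M).restrict hA) =
        LinearMap.trace ℂ (Ws N t) ((Matrix.toLin' (M * D)).restrict hB) := by
    rintro _ rfl hA hB
    congr 1
    refine LinearMap.ext fun x => ?_
    apply Subtype.ext
    rw [LinearMap.restrict_apply, LinearMap.restrict_apply]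
    change M *ᵥ (x : Fin N × Fin N → ℂ) = Matrix.toLin' (M * D) x
    rw [Matrix.toLin'_apply, ← Matrix.mulVec_mulVec, hDx _ x.2]
  exact h3 _ (U_zero t) _ _

/-- the multiplicity of the character `s` in weight `t` -/
noncomputable def mu (N t s : ℕ) : ℕ := Module.finrank ℂ (Kr N (0 + (t - s)) s)

theorem Tt_eq {M : M2 N} (hM : Good M) (t : ℕ) :
    Tt t M = ∑ s ∈ range (t + 1), (mu N t s : ℂ) * ev s M := by
  rw [← tU_Tt hM, tU_eq]
  rfl

lemma mu_self {t : ℕ} (h : Has N t) : 1 ≤ mu N t t := by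
  unfold mu
  rw [Nat.sub_self, Nat.add_zero]
  have h1 : hw N t ∈ Kr N 0 t := ⟨by rw [U_zero]; exact hw_mem t, hw_E t⟩
  have h2 : Kr N 0 t ≠ ⊥ := fun h3 => hw_ne h ((Submodule.mem_bot ℂ).1 (h3 ▸ h1))
  exact Nat.one_le_iff_ne_zero.2 fun h3 => h2 (Submodule.finrank_eq_zero.1 h3)

lemma sh_wt (M : M2 N) (t : ℕ) :
    Tt t (sh M) = (starRingEnd ℂ) (Tt t M) := by
  unfold Tt
  rw [map_sum, ← Equiv.sum_comp (Equiv.prodComm (Fin N) (Fin N))]
  refine sum_congr rfl fun p _ => ?_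
  obtain ⟨a, b⟩ := p
  change (if (b : ℕ) + a = t then (starRingEnd ℂ) (M (a, b) (a, b)) else 0) =
    (starRingEnd ℂ) (if (a : ℕ) + b = t then M (a, b) (a, b) else 0)
  rw [add_comm (b : ℕ)]
  split_ifs <;> simp

/-- **the characters of the adjoint** -/
theorem ev_sh {M : M2 N} (hM : Good M) (hs : Good (sh M)) (t : ℕ) :
    ev t (sh M) = (starRingEnd ℂ) (ev t M) := by
  induction t using Nat.strong_induction_on with
  | _ t ih =>
    by_cases h : Has N t
    · have h1 := sh_wt M t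
      rw [Tt_eq hM, Tt_eq hs, map_sum, sum_range_succ, sum_range_succ] at h1
      have h2 : ∑ s ∈ range t, (mu N t s : ℂ) * ev s (sh M) =
          ∑ s ∈ range t, (starRingEnd ℂ) ((mu N t s : ℂ) * ev s M) := by
        refine sum_congr rfl fun s hs' => ?_
        rw [mem_range] at hs'
        rw [map_mul, ih s hs', Complex.conj_natCast]
      rw [h2, add_right_inj, map_mul, Complex.conj_natCast] at h1
      have h3 : (mu N t t : ℂ) ≠ 0 := by
        have := mu_self h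
        exact_mod_cast (by omega : mu N t t ≠ 0)
      exact mul_left_cancel₀ h3 h1
    · rw [ev_zero h, ev_zero h, map_zero]

/-- the multiplicity of the character `s` -/
noncomputable def mult (N s : ℕ) : ℕ := ∑ t ∈ range (2 * N), if s ≤ t then mu N t s else 0

theorem trace_eq {M : M2 N} (hM : Good M) :
    Matrix.trace M = ∑ s ∈ range (2 * N), (mult N s : ℂ) * ev s M := by
  have h1 : Matrix.trace M = ∑ t ∈ range (2 * N), Tt t M := by
    unfold Matrix.trace Tt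
    rw [sum_comm]
    refine sum_congr rfl fun p _ => ?_
    rw [sum_ite_eq, if_pos, Matrix.diag_apply]
    rw [mem_range]
    have := p.1.isLt
    have := p.2.isLt
    omega
  rw [h1]
  have h2 : ∀ t ∈ range (2 * N), Tt t M =
      ∑ s ∈ range (2 * N), (if s ≤ t then (mu N t s : ℂ) * ev s M else 0) := by
    intro t ht
    rw [mem_range] at ht
    rw [Tt_eq hM, ← sum_filter]
    congr 1
    ext s
    rw [mem_range, mem_filter, mem_range]
    omega
  rw [sum_congr rfl h2, sum_comm]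
  refine sum_congr rfl fun s _ => ?_
  unfold mult
  push_cast
  rw [sum_mul]
  refine sum_congr rfl fun t _ => ?_
  split_ifs <;> simp

lemma mult_pos {s : ℕ} (h : Has N s) : 1 ≤ mult N s := by
  have h1 := h.lt
  unfold mult
  have h2 := single_le_sum (f := fun t => if s ≤ t then mu N t s else 0)
    (fun _ _ => Nat.zero_le _) (mem_range.2 (by omega : s < 2 * N))
  rw [if_pos le_rfl] at h2
  exact (mu_self h).trans h2

open Classical in
/-- the characters which occur -/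
noncomputable def SS (N : ℕ) : Finset ℕ := (range (2 * N)).filter fun s => Has N s

open Classical in
lemma SS_sub : SS N ⊆ range (2 * N) := by
  unfold SS
  exact filter_subset _ _

open Classical in
lemma mem_SS_iff {s : ℕ} : s ∈ SS N ↔ s ∈ range (2 * N) ∧ Has N s := by
  unfold SS
  exact mem_filter

theorem trace_eq' {M : M2 N} (hM : Good M) :
    Matrix.trace M = ∑ s ∈ SS N, (mult N s : ℂ) * ev s M := by
  rw [trace_eq hM]
  symm
  refine sum_subset SS_sub fun s hs hns => ?_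
  have h : ¬ Has N s := fun h => hns (mem_SS_iff.2 ⟨hs, h⟩)
  rw [ev_zero h, mul_zero]

lemma mem_SS {s : ℕ} (h : s ∈ SS N) : Has N s := (mem_SS_iff.1 h).2

lemma mult_sum : ∑ s ∈ SS N, mult N s = N ^ 2 := by
  have h := trace_eq' (Good.one (N := N))
  rw [Matrix.trace_one, Fintype.card_prod, Fintype.card_fin] at h
  have h1 : ∑ s ∈ SS N, (mult N s : ℂ) * ev s (1 : M2 N) = ((∑ s ∈ SS N, mult N s : ℕ) : ℂ) := by
    push_cast
    exact sum_congr rfl fun s hs => by rw [ev_one (mem_SS hs), mul_one]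
  rw [h1] at h
  have h2 : N * N = ∑ s ∈ SS N, mult N s := by exact_mod_cast h
  rw [← h2, pow_two]

/-- the value of the double -/
noncomputable def Pd (M : M2 N) : ℝ := ∑ s ∈ SS N, (mult N s : ℝ) * ‖ev s M‖ ^ 2

lemma Pd_nonneg (M : M2 N) : 0 ≤ Pd M := sum_nonneg fun s _ => by positivity

theorem trace_sq {M : M2 N} (hM : Good M) (hs : Good (sh M)) :
    Matrix.trace (sh M * M) = Pd M := by
  rw [trace_eq' (hs.mul hM)]
  unfold Pd
  push_cast
  refine sum_congr rfl fun s _ => ?_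
  rw [ev_mul s hs hM, ev_sh hM hs, Complex.conj_mul']

theorem trace_pow {M : M2 N} (hM : Good M) (hs : Good (sh M)) (m : ℕ) :
    Matrix.trace ((sh M * M) ^ m) = (∑ s ∈ SS N, (mult N s : ℝ) * (‖ev s M‖ ^ 2) ^ m : ℝ) := by
  rw [trace_eq' ((hs.mul hM).pow m)]
  push_cast
  refine sum_congr rfl fun s h => ?_
  rw [ev_pow (mem_SS h) (hs.mul hM), ev_mul s hs hM, ev_sh hM hs, Complex.conj_mul']

/-- **the reflection inequality** -/
theorem trace_cs {A B : M2 N} (hA : Good A) (hB : Good B) :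
    ‖Matrix.trace (A * B)‖ ^ 2 ≤ Pd A * Pd B := by
  rw [trace_eq' (hA.mul hB)]
  have h1 : ‖∑ s ∈ SS N, (mult N s : ℂ) * ev s (A * B)‖ ≤
      ∑ s ∈ SS N, (Real.sqrt (mult N s) * ‖ev s A‖) * (Real.sqrt (mult N s) * ‖ev s B‖) := by
    refine (_root_.norm_sum_le _ _).trans (le_of_eq (sum_congr rfl fun s _ => ?_))
    rw [norm_mul, ev_mul s hA hB, norm_mul, Complex.norm_natCast]
    have h2 : (mult N s : ℝ) = Real.sqrt (mult N s) * Real.sqrt (mult N s) :=
      (Real.mul_self_sqrt (by positivity)).symm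
    rw [h2]
    simp only [Real.sqrt_mul_self (Real.sqrt_nonneg _)]
    ring
  have h2 : ∀ M : M2 N, ∑ s ∈ SS N, (Real.sqrt (mult N s) * ‖ev s M‖) ^ 2 = Pd M := by
    intro M
    refine sum_congr rfl fun s _ => ?_
    rw [mul_pow, Real.sq_sqrt (by positivity)]
  calc ‖∑ s ∈ SS N, (mult N s : ℂ) * ev s (A * B)‖ ^ 2
      ≤ (∑ s ∈ SS N, (Real.sqrt (mult N s) * ‖ev s A‖) * (Real.sqrt (mult N s) * ‖ev s B‖)) ^ 2 := by
        gcongr
    _ ≤ _ := sum_mul_sq_le_sq_mul_sq _ _ _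
    _ = _ := by rw [h2, h2]

lemma term_le {M : M2 N} {s : ℕ} (hs : s ∈ SS N) : ‖ev s M‖ ^ 2 ≤ Pd M := by
  have h1 : (1 : ℝ) ≤ mult N s := by exact_mod_cast mult_pos (mem_SS hs)
  calc ‖ev s M‖ ^ 2 ≤ (mult N s : ℝ) * ‖ev s M‖ ^ 2 := by
        nlinarith [sq_nonneg ‖ev s M‖]
    _ ≤ Pd M := single_le_sum (f := fun s => (mult N s : ℝ) * ‖ev s M‖ ^ 2)
        (fun _ _ => by positivity) hs

/-- the powers: upper bound -/
theorem pow_le (M : M2 N) (m : ℕ) :
    ∑ s ∈ SS N, (mult N s : ℝ) * (‖ev s M‖ ^ 2) ^ (m + 1) ≤ Pd M ^ (m + 1) := by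
  induction m with
  | zero => simp [Pd]
  | succ m ih =>
    calc ∑ s ∈ SS N, (mult N s : ℝ) * (‖ev s M‖ ^ 2) ^ (m + 1 + 1)
        ≤ ∑ s ∈ SS N, ((mult N s : ℝ) * (‖ev s M‖ ^ 2) ^ (m + 1)) * Pd M := by
          refine sum_le_sum fun s hs => ?_
          rw [pow_succ _ (m + 1), ← mul_assoc]
          exact mul_le_mul_of_nonneg_left (term_le hs) (by positivity)
      _ = (∑ s ∈ SS N, (mult N s : ℝ) * (‖ev s M‖ ^ 2) ^ (m + 1)) * Pd M := by rw [sum_mul]
      _ ≤ Pd M ^ (m + 1) * Pd M := mul_le_mul_of_nonneg_right ih (Pd_nonneg M)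
      _ = Pd M ^ (m + 1 + 1) := (pow_succ _ _).symm

/-- the powers: lower bound -/
theorem le_pow (hN : 0 < N) (M : M2 N) (m : ℕ) :
    Pd M ^ (m + 1) ≤ ((N : ℝ) ^ 2) ^ m *
      ∑ s ∈ SS N, (mult N s : ℝ) * (‖ev s M‖ ^ 2) ^ (m + 1) := by
  have hN2 : (0 : ℝ) < (N : ℝ) ^ 2 := by positivity
  have hw : ∑ s ∈ SS N, (mult N s : ℝ) / (N : ℝ) ^ 2 = 1 := by
    rw [← sum_div, div_eq_one_iff_eq hN2.ne']
    exact_mod_cast mult_sum (N := N)
  have h := Real.pow_arith_mean_le_arith_mean_pow (SS N) (fun s => (mult N s : ℝ) / (N : ℝ) ^ 2)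
    (fun s => ‖ev s M‖ ^ 2) (fun s _ => by positivity) hw (fun s _ => by positivity) (m + 1)
  have h1 : ∑ s ∈ SS N, (mult N s : ℝ) / (N : ℝ) ^ 2 * ‖ev s M‖ ^ 2 = Pd M / (N : ℝ) ^ 2 := by
    unfold Pd
    rw [sum_div]
    exact sum_congr rfl fun s _ => by ring
  have h2 : ∑ s ∈ SS N, (mult N s : ℝ) / (N : ℝ) ^ 2 * (‖ev s M‖ ^ 2) ^ (m + 1) =
      (∑ s ∈ SS N, (mult N s : ℝ) * (‖ev s M‖ ^ 2) ^ (m + 1)) / (N : ℝ) ^ 2 := by
    rw [sum_div]
    exact sum_congr rfl fun s _ => by ring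
  rw [h1, h2, div_pow, div_le_div_iff₀ (by positivity) hN2, pow_succ ((N : ℝ) ^ 2) m] at h
  have h3 : Pd M ^ (m + 1) * (N : ℝ) ^ 2 ≤ (((N : ℝ) ^ 2) ^ m *
      ∑ s ∈ SS N, (mult N s : ℝ) * (‖ev s M‖ ^ 2) ^ (m + 1)) * (N : ℝ) ^ 2 := by
    calc _ ≤ _ := h
      _ = _ := by ring
  exact le_of_mul_le_mul_right h3 hN2

/-- the product of two doubles -/
theorem prod_le {A B : M2 N} (hA : Good A) (hB : Good B) :
    Pd (A * B) ≤ Pd A * Pd B := by
  unfold Pd
  rw [sum_mul]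
  refine sum_le_sum fun s hs => ?_
  rw [ev_mul s hA hB, norm_mul, mul_pow, ← mul_assoc]
  exact mul_le_mul_of_nonneg_left (term_le hs) (by positivity)

end Pool.Agent.Q66.BS
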