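import Pool.Agent.Q66.BS.Lnk

/-!
# The character of a full twist
-/

set_option autoImplicit false

namespace Pool.Agent.Q66.BS

open Finset Matrix Pool.Agent.W715.VC Pool.Agent.H550R3.Jones Pool.Agent.Q66.TG
open Pool.Agent.W709.QAT (Piece run cup cap kap Diag)
open Pool.Agent.W591.QAT (act_twist act_cup act_cap)

variable {N : ℕ}

lemma Eo_val {a a' : Fin N} (h : (a' : ℕ) = a + 1) : Eo N a a' = br (rt N) (a' : ℕ) := by
  have hN : 0 < N := by have := a.isLt; omega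
  unfold Eo irr
  dsimp only
  rw [if_pos h, br_refl hN]

/-- the relation between neighbouring coordinates of a vector in the kernel of `E` -/
lemma E_rel {x : Fin N × Fin N → ℂ} (hE : EE N *ᵥ x = 0) {a a' b b' : Fin N}
    (ha : (a' : ℕ) = a + 1) (hb : (b' : ℕ) = b + 1) :
    br (rt N) (a' : ℕ) * x (a', b) * k1 b + br (rt N) (b' : ℕ) * x (a, b') = 0 := by
  have h2 := congrFun hE (a, b)
  have h3 : (EE N *ᵥ x) (a, b) = (∑ a'', Eo N a a'' * x (a'', b)) * k1 b +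
      ∑ b'', Eo N b b'' * x (a, b'') := EE_sum _ _ x
  rw [h3, Pi.zero_apply, sum_eq_single a', sum_eq_single b', Eo_val ha, Eo_val hb] at h2
  · exact h2
  · intro c _ hc
    by_cases h4 : Eo N b c = 0
    · rw [h4, zero_mul]
    · exact absurd (Fin.ext (by rw [Eo_ne h4, hb])) hc
  · intro h
    exact absurd (mem_univ _) h
  · intro c _ hc
    by_cases h4 : Eo N a c = 0
    · rw [h4, zero_mul]
    · exact absurd (Fin.ext (by rw [Eo_ne h4, ha])) hc
  · intro h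
    exact absurd (mem_univ _) h

/-- the coordinates of the highest weight vector -/
lemma hw_coord {x : Fin N × Fin N → ℂ} (hE : EE N *ᵥ x = 0) {s : ℕ} (hs : s < N) :
    ∀ j : ℕ, ∀ hj : j ≤ s,
      brf (rt N) j * brf (rt N) (s - j) * x (⟨j, by omega⟩, ⟨s - j, by omega⟩) =
        (-1) ^ j * rt N ^ (-(j : ℤ) * ((N : ℤ) - 1) + (j : ℤ) * (2 * (s : ℤ) - 1 - j)) *
          (brf (rt N) s * x (⟨0, by omega⟩, ⟨s, hs⟩)) := by
  intro j
  induction j with
  | zero =>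
    intro _
    have e0 : brf (rt N) 0 = 1 := by simp [brf]
    simp [e0]
  | succ j ih =>
    intro hj
    have h1 := ih (by omega)
    have h2 := E_rel (N := N) hE (a := ⟨j, by omega⟩) (a' := ⟨j + 1, by omega⟩)
      (b := ⟨s - (j + 1), by omega⟩) (b' := ⟨s - j, by omega⟩) rfl (by
        change s - j = s - (j + 1) + 1
        omega)
    have e1 : brf (rt N) (s - j) = brf (rt N) (s - (j + 1)) * br (rt N) ((s - j : ℕ) : ℤ) := by
      have e2 : s - j = s - (j + 1) + 1 := by omega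
      rw [e2, brf_succ']
      push_cast
      rfl
    have e3 : brf (rt N) (j + 1) = brf (rt N) j * br (rt N) ((j + 1 : ℕ) : ℤ) := by
      rw [brf_succ']
      push_cast
      rfl
    have hk : (k1 (⟨s - (j + 1), by omega⟩ : Fin N)) =
        rt N ^ ((N : ℤ) - 1 - 2 * ((s : ℤ) - (j + 1))) := by
      unfold k1
      congr 2
      push_cast [Nat.cast_sub hj]
      ring
    rw [hk] at h2
    have h2' : br (rt N) ((j + 1 : ℕ) : ℤ) * x (⟨j + 1, by omega⟩, ⟨s - (j + 1), by omega⟩) *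
        rt N ^ ((N : ℤ) - 1 - 2 * ((s : ℤ) - (j + 1))) + br (rt N) ((s - j : ℕ) : ℤ) *
          x (⟨j, by omega⟩, ⟨s - j, by omega⟩) = 0 := h2
    have hz : rt N ^ ((N : ℤ) - 1 - 2 * ((s : ℤ) - (j + 1))) ≠ 0 := zpow_ne_zero _ (rt_ne N)
    have e4 : rt N ^ (-(j : ℤ) * ((N : ℤ) - 1) + (j : ℤ) * (2 * (s : ℤ) - 1 - j)) =
        rt N ^ (-((j + 1 : ℕ) : ℤ) * ((N : ℤ) - 1) +
          ((j + 1 : ℕ) : ℤ) * (2 * (s : ℤ) - 1 - ((j + 1 : ℕ) : ℤ))) *
          rt N ^ ((N : ℤ) - 1 - 2 * ((s : ℤ) - (j + 1))) := by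
      rw [← zpow_add₀ (rt_ne N)]
      congr 1
      push_cast
      ring
    rw [e1, e4] at h1
    apply mul_right_cancel₀ hz
    rw [e3, pow_succ]
    linear_combination (-1 : ℂ) * h1 + (brf (rt N) j * brf (rt N) (s - (j + 1))) * h2'

/-- the first coordinate after a crossing -/
lemma PP_first {x : Fin N × Fin N → ℂ} {s : ℕ} (hs : s < N) (h0 : 0 < N) :
    (PP N *ᵥ x) (⟨0, h0⟩, ⟨s, hs⟩) =
      rt N ^ (-((N : ℤ) - 1) * (1 + s)) * x (⟨s, hs⟩, ⟨0, h0⟩) := by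
  have h : (PP N *ᵥ x) (⟨0, h0⟩, ⟨s, hs⟩) = ∑ q, PP N (⟨0, h0⟩, ⟨s, hs⟩) q * x q := rfl
  rw [h, sum_eq_single (⟨s, hs⟩, ⟨0, h0⟩)]
  · congr 1
    have e0 : brf (rt N) 0 = 1 := by simp [brf]
    unfold PP crossP
    rw [if_pos ⟨by simp, by simp⟩]
    simp [e0]
  · intro q _ hq
    have : PP N (⟨0, h0⟩, ⟨s, hs⟩) q = 0 := by
      unfold PP crossP
      rw [if_neg]
      rintro ⟨h1, h2⟩
      apply hq
      dsimp only at h1 h2
      have h3 : (q.2 : ℕ) = 0 := by omega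
      exact Prod.ext (Fin.ext (by change (q.1 : ℕ) = s; omega)) (Fin.ext h3)
    rw [this, zero_mul]
  · intro h1
    exact absurd (mem_univ _) h1

lemma good_PP : Good (PP N) := ⟨PP_EE, fun _ _ h => P_wt h⟩

/-- **the character of a crossing** -/
theorem ev_PP {s : ℕ} (h : Has N s) :
    ev s (PP N) = (-1) ^ s * rt N ^ (-((N : ℤ) - 1) * (1 + 2 * s) + s * (s - 1)) := by
  have h0 : 0 < N := by have := h.lt; omega
  have hs := h.lt
  have h1 := congrFun (ev_spec (good_PP (N := N)) s) (⟨0, h0⟩, ⟨s, hs⟩)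
  rw [PP_first hs h0, Pi.smul_apply, smul_eq_mul] at h1
  have h2 := hw_coord (hw_E (N := N) s) hs s le_rfl
  have e0 : brf (rt N) 0 = 1 := by simp [brf]
  have h3 : brf (rt N) s * hw N s (⟨s, hs⟩, ⟨0, h0⟩) =
      (-1) ^ s * rt N ^ (-(s : ℤ) * ((N : ℤ) - 1) + (s : ℤ) * (2 * (s : ℤ) - 1 - s)) *
        (brf (rt N) s * hw N s (⟨0, h0⟩, ⟨s, hs⟩)) := by
    have e1 : (⟨s - s, by omega⟩ : Fin N) = ⟨0, h0⟩ := Fin.ext (Nat.sub_self s)
    rw [e1, Nat.sub_self, e0, mul_one] at h2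
    exact h2
  have hb : brf (rt N) s ≠ 0 := brf_ne' hs
  have hx := hw_first h h0
  have h4 : hw N s (⟨s, hs⟩, ⟨0, h0⟩) =
      (-1) ^ s * rt N ^ (-(s : ℤ) * ((N : ℤ) - 1) + (s : ℤ) * (2 * (s : ℤ) - 1 - s)) *
        hw N s (⟨0, h0⟩, ⟨s, hs⟩) := by
    apply mul_left_cancel₀ hb
    rw [h3]
    ring
  rw [h4] at h1
  apply mul_right_cancel₀ hx
  rw [← h1, ← mul_assoc, ← mul_assoc]
  congr 1
  have e5 : rt N ^ (-((N : ℤ) - 1) * (1 + 2 * s) + s * (s - 1)) =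
      rt N ^ (-((N : ℤ) - 1) * (1 + s)) *
        rt N ^ (-(s : ℤ) * ((N : ℤ) - 1) + (s : ℤ) * (2 * (s : ℤ) - 1 - s)) := by
    rw [← zpow_add₀ (rt_ne N)]
    congr 1
    ring
  rw [e5]
  ring

/-- **the character of a full twist** -/
theorem ev_PP_sq {s : ℕ} (h : Has N s) :
    ev s (PP N) ^ 2 = rt N ^ 2 * (rt N ^ 2) ^ (s * (s + 1)) := by
  have h0 : 0 < N := by have := h.lt; omega
  rw [ev_PP h, mul_pow, ← pow_mul, mul_comm s 2, pow_mul, neg_one_sq, one_pow, one_mul]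
  have h1 : rt N ^ (2 * (N : ℤ)) = 1 := rt_two h0
  have e1 : (rt N ^ (-((N : ℤ) - 1) * (1 + 2 * s) + s * (s - 1))) ^ 2 =
      rt N ^ (2 * (-((N : ℤ) - 1) * (1 + 2 * s) + s * (s - 1))) := by
    rw [← zpow_natCast, ← _root_.zpow_mul]
    congr 1
    push_cast
    ring
  have e2 : rt N ^ 2 * (rt N ^ 2) ^ (s * (s + 1)) = rt N ^ ((2 : ℤ) + 2 * (s * (s + 1))) := by
    rw [zpow_add₀ (rt_ne N), ← pow_mul, ← zpow_natCast, ← zpow_natCast]
    congr 2
  have e3 : 2 * (-((N : ℤ) - 1) * (1 + 2 * s) + s * (s - 1)) =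
      (2 * (N : ℤ)) * (-(1 + 2 * s)) + ((2 : ℤ) + 2 * (s * (s + 1))) := by ring
  rw [e1, e2, e3, zpow_add₀ (rt_ne N), _root_.zpow_mul, h1, _root_.one_zpow, one_mul]

/-! ### the full twists -/

/-- `k` full twists -/
def twD (σ : Bool) (m : ℕ) : Diag := [Piece.twist 0 σ m]

lemma T22_tw (σ : Bool) (m : ℕ) : T22 (twD σ m) := ⟨⟨by simp [Fit], trivial⟩, rfl⟩

lemma opM_tw (hN : 0 < N) (σ : Bool) (m : ℕ) :
    opM N (twD σ m) = (if σ then PP N else QQ N) ^ m := by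
  ext p q
  obtain ⟨a, b⟩ := p
  rw [opM_apply hN (T22_tw σ m)]
  change (Piece.twist 0 σ m).act N (rt N) (dv q) [a, b] = _
  have h := act_twist (v := rt N) 0 σ m (dv q) [] [] a b rfl
  rw [List.nil_append] at h
  rw [h, sum_eq_single q]
  · unfold dv PP QQ
    rw [List.nil_append, if_pos rfl, mul_one]
  · intro r _ hr
    have : dv q ([] ++ r.1 :: r.2 :: []) = 0 := by
      unfold dv
      rw [List.nil_append, if_neg]
      intro h1
      apply hr
      simp only [List.cons.injEq, and_true] at h1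
      exact Prod.ext h1.1 h1.2
    rw [this, mul_zero]
  · intro h1
    exact absurd (mem_univ _) h1

end Pool.Agent.Q66.BS
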