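import Pool.Agent.Q66.BS.Lim

/-!
# Words in tangles: the maxima of the characters
-/

set_option autoImplicit false

namespace Pool.Agent.Q66.BS

open Finset Filter Topology Pool.Agent.Q66.TG
open Pool.Agent.W709.QAT (Piece run cup cap kap Diag)

/-- comparison of products -/
lemma list_cmp {ι : Type} (f g : ι → ℝ) : ∀ L : List ι, (∀ a ∈ L, 0 ≤ f a ∧ f a ≤ g a) →
    0 ≤ (L.map f).prod ∧ (L.map f).prod ≤ (L.map g).prod ∧
      ∀ a ∈ L, (L.map f).prod * g a ≤ f a * (L.map g).prod
  | [], _ => by simp
  | b :: L, h => by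
    obtain ⟨h1, h2, h3⟩ := list_cmp f g L fun a ha => h a (List.mem_cons_of_mem _ ha)
    obtain ⟨h4, h5⟩ := h b (List.mem_cons_self ..)
    have h6 : 0 ≤ g b := h4.trans h5
    rw [List.map_cons, List.map_cons, List.prod_cons, List.prod_cons]
    refine ⟨mul_nonneg h4 h1, mul_le_mul h5 h2 h1 h6, fun a ha => ?_⟩
    rcases List.mem_cons.1 ha with rfl | ha'
    · calc f a * (L.map f).prod * g a = f a * (g a * (L.map f).prod) := by ring
        _ ≤ f a * (g a * (L.map g).prod) := by gcongr
    · have h7 := h3 a ha'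
      have h8 : 0 ≤ f a := (h a ha).1
      have h9 : 0 ≤ (L.map g).prod := h1.trans h2
      calc f b * (L.map f).prod * g a = f b * ((L.map f).prod * g a) := by ring
        _ ≤ f b * (f a * (L.map g).prod) := by gcongr
        _ ≤ g b * (f a * (L.map g).prod) := by gcongr
        _ = f a * (g b * (L.map g).prod) := by ring

/-- comparison of products over two lists -/
lemma list_cmp2 {ι : Type} {f g : ι → ℝ} {M P : ℝ} (hM : 0 ≤ M) (hP : 0 ≤ P) : ∀ w : List ι,
    (∀ a ∈ w, 0 ≤ f a ∧ 0 ≤ g a ∧ M * g a ≤ f a * P) →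
      M ^ w.length * (w.map g).prod ≤ P ^ w.length * (w.map f).prod ∧ 0 ≤ (w.map g).prod ∧
        0 ≤ (w.map f).prod
  | [], _ => by simp
  | b :: w, h => by
    obtain ⟨h1, h2, h3⟩ := list_cmp2 hM hP w fun a ha => h a (List.mem_cons_of_mem _ ha)
    obtain ⟨h4, h5, h6⟩ := h b (List.mem_cons_self ..)
    rw [List.map_cons, List.map_cons, List.prod_cons, List.prod_cons, List.length_cons]
    refine ⟨?_, mul_nonneg h5 h2, mul_nonneg h4 h3⟩
    calc M ^ (w.length + 1) * (g b * (w.map g).prod) =
          (M * g b) * (M ^ w.length * (w.map g).prod) := by ring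
      _ ≤ (f b * P) * (P ^ w.length * (w.map f).prod) := by
          refine mul_le_mul h6 h1 ?_ (mul_nonneg h4 hP)
          exact mul_nonneg (pow_nonneg hM _) h2
      _ = P ^ (w.length + 1) * (f b * (w.map f).prod) := by ring

variable {N : ℕ}

lemma T22_flatten : ∀ L : List Diag, (∀ A ∈ L, T22 A) → T22 L.flatten
  | [], _ => T22_nil
  | A :: L, h => by
    rw [List.flatten_cons]
    exact T22_append (h A (List.mem_cons_self ..))
      (T22_flatten L fun B hB => h B (List.mem_cons_of_mem _ hB))

lemma norm_ee_flatten (hN : 0 < N) {s : ℕ} (hs : s ∈ range N) : ∀ L : List Diag, (∀ A ∈ L, T22 A) →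
    ‖ee N L.flatten s‖ = (L.map fun A => ‖ee N A s‖).prod
  | [], _ => by simp [ee_nil hN hs]
  | A :: L, h => by
    have h1 : ∀ B ∈ L, T22 B := fun B hB => h B (List.mem_cons_of_mem _ hB)
    rw [List.flatten_cons, ee_append hN (h A (List.mem_cons_self ..)) (T22_flatten L h1), norm_mul,
      norm_ee_flatten hN hs L h1, List.map_cons, List.prod_cons]

/-- **words** -/
theorem mx_words (hN : 0 < N) (L : List Diag) (hL : ∀ A ∈ L, T22 A) :
    mx hN L.flatten ≤ (L.map (mx hN)).prod ∧
    ∀ w : List Diag, (∀ A ∈ w, A ∈ L) →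
      mx hN L.flatten ^ w.length * (w.map (mx hN)).prod ≤
        (L.map (mx hN)).prod ^ w.length * mx hN w.flatten := by
  obtain ⟨s, hs, h⟩ := exists_mx hN L.flatten
  rw [norm_ee_flatten hN hs L hL] at h
  obtain ⟨h1, h2, h3⟩ := list_cmp (fun A => ‖ee N A s‖) (mx hN) L fun A _ =>
    ⟨norm_nonneg _, le_mx hN A hs⟩
  rw [h] at h1 h2 h3
  refine ⟨h2, fun w hw => ?_⟩
  have h4 := list_cmp2 (f := fun A => ‖ee N A s‖) (g := mx hN) h1 (h1.trans h2) w fun A hA =>
    ⟨norm_nonneg _, mx_nonneg hN A, h3 A (hw A hA)⟩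
  refine h4.1.trans (mul_le_mul_of_nonneg_left ?_ (pow_nonneg (h1.trans h2) _))
  rw [← norm_ee_flatten hN hs w fun A hA => hL A (hw A hA)]
  exact le_mx hN _ hs

/-- **limits for words** -/
theorem words_limit {ι : Type} {F : Filter ℕ} (L w : List ι) (x : ι → ℕ → ℝ) (y z : ℕ → ℝ)
    (V : ι → ℝ) (hL : L ≠ []) (hw : ∀ a ∈ w, a ∈ L) (hx : ∀ a ∈ L, ∀ N, 0 ≤ x a N) (hy : ∀ N, 0 ≤ y N)
    (hz : ∀ N, 0 ≤ z N) (h1 : ∀ᶠ N in F, z N ≤ (w.map fun a => x a N).prod)
    (h2 : ∀ᶠ N in F, y N ^ w.length * (w.map fun a => x a N).prod ≤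
      (L.map fun a => x a N).prod ^ w.length * z N)
    (hF : ∀ᶠ N in F, 0 < N) (hV : ∀ a ∈ L, 0 < V a)
    (h3 : ∀ a ∈ L, Tendsto (fun N : ℕ => 2 * Real.pi / N * Real.log (x a N)) F (𝓝 (V a)))
    (h4 : Tendsto (fun N : ℕ => 2 * Real.pi / N * Real.log (y N)) F (𝓝 (L.map V).sum)) :
    Tendsto (fun N : ℕ => 2 * Real.pi / N * Real.log (z N)) F (𝓝 (w.map V).sum) := by
  have hlogprod : ∀ (l : List ι) (N : ℕ), (∀ a ∈ l, 0 < x a N) →
      0 < (l.map fun a => x a N).prod ∧ Real.log (l.map fun a => x a N).prod =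
        (l.map fun a => Real.log (x a N)).sum := by
    intro l N
    induction l with
    | nil => intro _; simp
    | cons b l ih =>
      intro h
      obtain ⟨h5, h6⟩ := ih fun a ha => h a (List.mem_cons_of_mem _ ha)
      have h7 := h b (List.mem_cons_self ..)
      rw [List.map_cons, List.prod_cons, List.map_cons, List.sum_cons, Real.log_mul h7.ne' h5.ne', h6]
      exact ⟨mul_pos h7 h5, rfl⟩
  have hpos : ∀ a ∈ L, ∀ᶠ N in F, 0 < x a N := by
    intro a ha
    filter_upwards [(h3 a ha).eventually_const_lt (hV a ha)] with N hN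
    rcases (hx a ha N).eq_or_lt with h | h
    · rw [← h, Real.log_zero, mul_zero] at hN
      exact absurd hN (lt_irrefl _)
    · exact h
  have hposL : ∀ᶠ N in F, ∀ a ∈ L, 0 < x a N := by
    have : ∀ l : List ι, (∀ a ∈ l, a ∈ L) → ∀ᶠ N in F, ∀ a ∈ l, 0 < x a N := by
      intro l
      induction l with
      | nil => intro _; simp
      | cons b l ih =>
        intro h
        filter_upwards [hpos b (h b (List.mem_cons_self ..)),
          ih fun a ha => h a (List.mem_cons_of_mem _ ha)] with N h5 h6 a ha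
        rcases List.mem_cons.1 ha with rfl | ha
        · exact h5
        · exact h6 a ha
    exact this L fun a ha => ha
  have hsum : 0 < (L.map V).sum := by
    have : ∀ l : List ι, l ≠ [] → (∀ a ∈ l, 0 < V a) → 0 < (l.map V).sum := by
      intro l hl h
      refine List.sum_pos _ (fun v hv => ?_) (by simpa using hl)
      obtain ⟨a, ha, rfl⟩ := List.mem_map.1 hv
      exact h a ha
    exact this L hL hV
  have hposy : ∀ᶠ N in F, 0 < y N := by
    filter_upwards [h4.eventually_const_lt hsum] with N hN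
    rcases (hy N).eq_or_lt with h | h
    · rw [← h, Real.log_zero, mul_zero] at hN
      exact absurd hN (lt_irrefl _)
    · exact h
  -- limits of the sums
  have hls : ∀ l : List ι, (∀ a ∈ l, a ∈ L) →
      Tendsto (fun N : ℕ => 2 * Real.pi / N * (l.map fun a => Real.log (x a N)).sum) F
        (𝓝 (l.map V).sum) := by
    intro l hl
    have h5 := tendsto_list_sum (f := fun a (N : ℕ) => 2 * Real.pi / N * Real.log (x a N)) (a := V)
      (x := F) l fun a ha => h3 a (hl a ha)
    refine h5.congr fun N => ?_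
    rw [← List.sum_map_mul_left]
  have hup := hls w hw
  have hlow : Tendsto (fun N : ℕ => 2 * Real.pi / N * (w.map fun a => Real.log (x a N)).sum +
      w.length * (2 * Real.pi / N * Real.log (y N) -
        2 * Real.pi / N * (L.map fun a => Real.log (x a N)).sum)) F (𝓝 (w.map V).sum) := by
    have h5 := hup.add ((h4.sub (hls L fun a ha => ha)).const_mul (w.length : ℝ))
    rw [sub_self, mul_zero, add_zero] at h5
    exact h5
  refine tendsto_of_tendsto_of_tendsto_of_le_of_le' hlow hup ?_ ?_
  · filter_upwards [h2, hF, hposL, hposy] with N h5 h6 h7 h8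
    obtain ⟨h9, h10⟩ := hlogprod w N fun a ha => h7 a (hw a ha)
    obtain ⟨h11, h12⟩ := hlogprod L N h7
    have hzpos : 0 < z N := by
      rcases (hz N).eq_or_lt with h | h
      · rw [← h, mul_zero] at h5
        have : 0 < y N ^ w.length * (w.map fun a => x a N).prod := by positivity
        linarith
      · exact h
    have h13 := Real.log_le_log (by positivity) h5
    rw [Real.log_mul (by positivity) h9.ne', Real.log_mul (by positivity) hzpos.ne', Real.log_pow,
      Real.log_pow, h10, h12] at h13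
    have hN' : (0 : ℝ) < N := by exact_mod_cast h6
    have hp : 0 < 2 * Real.pi / N := by
      have := Real.pi_pos
      positivity
    calc _ = 2 * Real.pi / N * (w.length * Real.log (y N) +
          (w.map fun a => Real.log (x a N)).sum - w.length * (L.map fun a => Real.log (x a N)).sum) := by
          ring
      _ ≤ _ := mul_le_mul_of_nonneg_left (by linarith) hp.le
  · filter_upwards [h1, h2, hF, hposL, hposy] with N h1 h5 h6 h7 h8
    obtain ⟨h9, h10⟩ := hlogprod w N fun a ha => h7 a (hw a ha)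
    have hzpos : 0 < z N := by
      rcases (hz N).eq_or_lt with h | h
      · rw [← h, mul_zero] at h5
        have : 0 < y N ^ w.length * (w.map fun a => x a N).prod := by positivity
        linarith
      · exact h
    have h13 := Real.log_le_log hzpos h1
    rw [h10] at h13
    have hN' : (0 : ℝ) < N := by exact_mod_cast h6
    have hp : 0 < 2 * Real.pi / N := by
      have := Real.pi_pos
      positivity
    exact mul_le_mul_of_nonneg_left h13 hp.le

end Pool.Agent.Q66.BS
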